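import Pool.Agent.TH149.WR.Stm

set_option autoImplicit false
set_option linter.unusedSectionVars false
set_option linter.unusedSimpArgs false
set_option linter.unnecessarySeqFocus false

/-!
# The block game: a sparse graph without two large anticomplete sets contains some `T j`
-/

namespace Pool.Agent.TH149.WR.Block

open Finset

variable {V : Type} [Fintype V] [DecidableEq V] (G : SimpleGraph V) [DecidableRel G.Adj]

/-- A system of live blocks `X i` with processed parts `Z i`, `i ∈ I`. -/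
structure Sys (θ : ℕ) (U : Finset V) (I : Finset ℕ) (X Z : ℕ → Finset V) : Prop where
  sub : ∀ i ∈ I, X i ⊆ U
  size : ∀ i ∈ I, 3 ^ I.card * θ ≤ (X i).card
  disj : ∀ i ∈ I, ∀ j ∈ I, i ≠ j → Disjoint (X i) (X j)
  azz : ∀ i ∈ I, ∀ j ∈ I, i ≠ j → ∀ a ∈ Z i, ∀ b ∈ Z j, ¬ G.Adj a b
  azx : ∀ i ∈ I, ∀ j ∈ I, i ≠ j → ∀ a ∈ Z i, ∀ b ∈ X j, ¬ G.Adj a b

variable {G} {θ : ℕ} {U : Finset V} {I : Finset ℕ} {X Z : ℕ → Finset V}

theorem Sys.mono (S : Sys G θ U I X Z) {I' : Finset ℕ} (h : I' ⊆ I) : Sys G θ U I' X Z where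
  sub i hi := S.sub i (h hi)
  size i hi := le_trans (Nat.mul_le_mul_right _ (Nat.pow_le_pow_right (by norm_num)
    (Finset.card_le_card h))) (S.size i (h hi))
  disj i hi j hj := S.disj i (h hi) j (h hj)
  azz i hi j hj := S.azz i (h hi) j (h hj)
  azx i hi j hj := S.azx i (h hi) j (h hj)

/-- One step of the game: the block `i` is processed and attached to some block `j`. -/
theorem step (hθ : 1 ≤ θ) (hdeg : ∀ v ∈ U, (U.filter (fun y => G.Adj v y)).card ≤ θ)
    (hcoh : ∀ A ⊆ U, ∀ B ⊆ U, Disjoint A B → θ ≤ A.card → θ ≤ B.card →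
      ∃ a ∈ A, ∃ b ∈ B, G.Adj a b)
    (S : Sys G θ U I X Z) (i : ℕ) (hi : i ∈ I) (hI : 2 ≤ I.card) :
    ∃ j ∈ I, j ≠ i ∧ ∃ X' Z' : ℕ → Finset V, Sys G θ U (I.erase i) X' Z' ∧
      (∀ l ∈ I.erase i, X' l ⊆ X l ∧ Z l ⊆ Z' l) ∧ Z i ⊆ Z' j ∧
      (∀ x ∈ X' j, ∃ y ∈ X i, y ∈ Z' j ∧ G.Adj x y) := by
  classical
  obtain ⟨c, hc⟩ : ∃ c, I.card = c + 1 := ⟨I.card - 1, by omega⟩
  have hc1 : 1 ≤ c := by omega
  have h3c : 3 ≤ 3 ^ c := by
    calc 3 = 3 ^ 1 := by norm_num
      _ ≤ 3 ^ c := Nat.pow_le_pow_right (by norm_num) hc1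
  have hsize : ∀ l ∈ I, 3 * (3 ^ c * θ) ≤ (X l).card := by
    intro l hl
    have := S.size l hl
    rw [hc, pow_succ] at this
    linarith
  have hcθ : 3 * θ ≤ 3 ^ c * θ := Nat.mul_le_mul_right _ h3c
  set cov : Finset V → ℕ → Finset V := fun A l => (X l).filter (fun x => ∃ a ∈ A, G.Adj x a)
    with hcov
  set P : Finset V → Prop := fun A => ∃ l ∈ I.erase i, (X l).card ≤ 3 * (cov A l).card with hP
  have hsplit : ∀ A l, (cov A l).card + ((X l).filter (fun x => ¬ ∃ a ∈ A, G.Adj x a)).card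
      = (X l).card := fun A l => Finset.card_filter_add_card_filter_not _
  have hPX : P (X i) := by
    have hne : (I.erase i).Nonempty := by
      rw [← Finset.card_pos, Finset.card_erase_of_mem hi]; omega
    obtain ⟨l, hl⟩ := hne
    refine ⟨l, hl, ?_⟩
    obtain ⟨hli, hlI⟩ := Finset.mem_erase.1 hl
    have h1 := hsplit (X i) l
    have h2 : ((X l).filter (fun x => ¬ ∃ a ∈ X i, G.Adj x a)).card < θ := by
      by_contra hcon
      rw [not_lt] at hcon
      obtain ⟨a, ha, b, hb, hab⟩ := hcoh _ (S.sub i hi) _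
        ((Finset.filter_subset _ _).trans (S.sub l hlI))
        (Finset.disjoint_of_subset_right (Finset.filter_subset _ _) (S.disj i hi l hlI (Ne.symm hli)))
        (by have := hsize i hi; omega) hcon
      exact (Finset.mem_filter.1 hb).2 ⟨a, ha, hab.symm⟩
    have h3 := hsize l hlI
    omega
  obtain ⟨A, hA, hAmin⟩ := Finset.exists_min_image ((X i).powerset.filter P) Finset.card
    ⟨X i, by rw [Finset.mem_filter]; exact ⟨Finset.mem_powerset_self _, hPX⟩⟩
  obtain ⟨hAX, hPA⟩ := Finset.mem_filter.1 hA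
  rw [Finset.mem_powerset] at hAX
  obtain ⟨j, hj, hjc⟩ := hPA
  obtain ⟨hji, hjI⟩ := Finset.mem_erase.1 hj
  have hAne : A.Nonempty := by
    rw [Finset.nonempty_iff_ne_empty]
    rintro rfl
    have h1 : cov ∅ j = ∅ := by
      simp [hcov]
    rw [h1] at hjc
    have h3 := hsize j hjI
    simp at hjc
    rw [hjc] at h3
    simp at h3
    omega
  obtain ⟨a, ha⟩ := hAne
  have hnot : ∀ l ∈ I.erase i, 3 * (cov (A.erase a) l).card < (X l).card := by
    intro l hl
    by_contra hcon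
    push Not at hcon
    have h1 := hAmin (A.erase a) (by
      rw [Finset.mem_filter, Finset.mem_powerset]
      exact ⟨(Finset.erase_subset _ _).trans hAX, ⟨l, hl, hcon⟩⟩)
    rw [Finset.card_erase_of_mem ha] at h1
    have h2 : 0 < A.card := Finset.card_pos.2 ⟨a, ha⟩
    omega
  have hadd : ∀ l ∈ I, (cov A l).card ≤ (cov (A.erase a) l).card + θ := by
    intro l hl
    have h1 : cov A l ⊆ cov (A.erase a) l ∪ U.filter (fun y => G.Adj a y) := by
      intro x hx
      obtain ⟨hx1, b, hb, hxb⟩ := Finset.mem_filter.1 hx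
      by_cases hba : b = a
      · subst hba
        exact Finset.mem_union_right _ (Finset.mem_filter.2 ⟨S.sub l hl hx1, hxb.symm⟩)
      · exact Finset.mem_union_left _
          (Finset.mem_filter.2 ⟨hx1, b, Finset.mem_erase.2 ⟨hba, hb⟩, hxb⟩)
    calc (cov A l).card ≤ (cov (A.erase a) l ∪ U.filter (fun y => G.Adj a y)).card :=
          Finset.card_le_card h1
      _ ≤ _ := Finset.card_union_le _ _
      _ ≤ _ := Nat.add_le_add_left (hdeg a (S.sub i hi (hAX ha))) _
  set X' : ℕ → Finset V := fun l => if l = j then cov A j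
    else (X l).filter (fun x => ¬ ∃ a ∈ A, G.Adj x a) with hX'
  set Z' : ℕ → Finset V := fun l => if l = j then Z j ∪ (Z i ∪ A) else Z l with hZ'
  have hX'sub : ∀ l, X' l ⊆ X l := by
    intro l
    simp only [hX']
    split_ifs with h
    · subst h; exact Finset.filter_subset _ _
    · exact Finset.filter_subset _ _
  have hX'j : X' j = cov A j := by simp [hX']
  have hZ'j : Z' j = Z j ∪ (Z i ∪ A) := by simp [hZ']
  have hX'l : ∀ l, l ≠ j → X' l = (X l).filter (fun x => ¬ ∃ a ∈ A, G.Adj x a) := by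
    intro l hl; simp [hX', hl]
  have hZ'l : ∀ l, l ≠ j → Z' l = Z l := by
    intro l hl; simp [hZ', hl]
  refine ⟨j, hjI, hji, X', Z', ⟨?_, ?_, ?_, ?_, ?_⟩, ?_, ?_, ?_⟩
  · intro l hl
    exact (hX'sub l).trans (S.sub l (Finset.mem_of_mem_erase hl))
  · intro l hl
    have hlI := Finset.mem_of_mem_erase hl
    rw [Finset.card_erase_of_mem hi, hc, Nat.add_sub_cancel]
    by_cases hlj : l = j
    · subst hlj
      rw [hX'j]
      have := hsize l hjI
      omega
    · rw [hX'l l hlj]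
      have h1 := hsplit A l
      have h2 := hadd l hlI
      have h3 := hnot l hl
      have h4 := hsize l hlI
      omega
  · intro l hl l' hl' hne
    exact Finset.disjoint_of_subset_left (hX'sub l) (Finset.disjoint_of_subset_right (hX'sub l')
      (S.disj l (Finset.mem_of_mem_erase hl) l' (Finset.mem_of_mem_erase hl') hne))
  · intro l hl l' hl' hne p hp q hq
    obtain ⟨hli, hlI⟩ := Finset.mem_erase.1 hl
    obtain ⟨hli', hlI'⟩ := Finset.mem_erase.1 hl'
    by_cases hlj : l = j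
    · subst hlj
      rw [hZ'j] at hp
      rw [hZ'l l' (Ne.symm hne)] at hq
      rcases Finset.mem_union.1 hp with hp | hp
      · exact S.azz l hlI l' hlI' hne p hp q hq
      · rcases Finset.mem_union.1 hp with hp | hp
        · exact S.azz i hi l' hlI' (Ne.symm hli') p hp q hq
        · exact fun h => S.azx l' hlI' i hi hli' q hq p (hAX hp) h.symm
    · rw [hZ'l l hlj] at hp
      by_cases hlj' : l' = j
      · subst hlj'
        rw [hZ'j] at hq
        rcases Finset.mem_union.1 hq with hq | hq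
        · exact S.azz l hlI l' hlI' hne p hp q hq
        · rcases Finset.mem_union.1 hq with hq | hq
          · exact S.azz l hlI i hi hli p hp q hq
          · exact S.azx l hlI i hi hli p hp q (hAX hq)
      · rw [hZ'l l' hlj'] at hq
        exact S.azz l hlI l' hlI' hne p hp q hq
  · intro l hl l' hl' hne p hp q hq
    obtain ⟨hli, hlI⟩ := Finset.mem_erase.1 hl
    obtain ⟨hli', hlI'⟩ := Finset.mem_erase.1 hl'
    by_cases hlj : l = j
    · subst hlj
      rw [hZ'j] at hp
      have hq' := hX'sub l' hq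
      rcases Finset.mem_union.1 hp with hp | hp
      · exact S.azx l hlI l' hlI' hne p hp q hq'
      · rcases Finset.mem_union.1 hp with hp | hp
        · exact S.azx i hi l' hlI' (Ne.symm hli') p hp q hq'
        · rw [hX'l l' (Ne.symm hne)] at hq
          exact fun h => (Finset.mem_filter.1 hq).2 ⟨p, hp, h.symm⟩
    · rw [hZ'l l hlj] at hp
      exact S.azx l hlI l' hlI' hne p hp q (hX'sub l' hq)
  · intro l hl
    refine ⟨hX'sub l, ?_⟩
    by_cases hlj : l = j
    · subst hlj; rw [hZ'j]; exact Finset.subset_union_left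
    · rw [hZ'l l hlj]
  · rw [hZ'j]
    exact Finset.subset_union_left.trans Finset.subset_union_right
  · intro x hx
    rw [hX'j] at hx
    obtain ⟨_, y, hy, hxy⟩ := Finset.mem_filter.1 hx
    refine ⟨y, hAX hy, ?_, hxy⟩
    rw [hZ'j]
    exact Finset.mem_union_right _ (Finset.mem_union_right _ hy)

/-- `x` has a neighbour in `Z`. -/
def R1 (G : SimpleGraph V) (x : V) (Z : Finset V) : Prop := ∃ y ∈ Z, G.Adj x y

/-- an induced path `x y z` with `y, z` in `Z` -/
def R2 (G : SimpleGraph V) (x : V) (Z : Finset V) : Prop :=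
  ∃ y ∈ Z, ∃ z ∈ Z, G.Adj x y ∧ G.Adj y z ∧ ¬ G.Adj x z

/-- an induced path `u 0 … u n` with a leaf `l` at `u 2` -/
def Pth (G : SimpleGraph V) (n : ℕ) (u : ℕ → V) (l : V) : Prop :=
  (∀ i j, i ≤ n → j ≤ n → (G.Adj (u i) (u j) ↔ (i + 1 = j ∨ j + 1 = i))) ∧
  (∀ i, i ≤ n → (G.Adj l (u i) ↔ i = 2))

/-- the half trees -/
def SS (n : ℕ) (G : SimpleGraph V) (x : V) (Z : Finset V) : Prop :=
  ∃ (u : ℕ → V) (l : V), Pth G n u l ∧ u n = x ∧ (∀ i, i < n → u i ∈ Z) ∧ l ∈ Z

/-- the half trees with a further leaf at `u p` -/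
def EE (n p : ℕ) (G : SimpleGraph V) (x : V) (Z : Finset V) : Prop :=
  ∃ (u : ℕ → V) (l w : V), Pth G n u l ∧ (∀ i, i ≤ n → (G.Adj w (u i) ↔ i = p)) ∧ ¬ G.Adj l w ∧
    u n = x ∧ (∀ i, i < n → u i ∈ Z) ∧ l ∈ Z ∧ w ∈ Z

/-- all points of the block `i` have the property `P` -/
def Ty (P : SimpleGraph V → V → Finset V → Prop) (G : SimpleGraph V) (X Z : ℕ → Finset V)
    (i : ℕ) : Prop := ∀ x ∈ X i, P G x (Z i)

theorem R1.mono {x : V} {Z Z' : Finset V} (h : Z ⊆ Z') (hR : R1 G x Z) : R1 G x Z' := by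
  obtain ⟨y, hy, h1⟩ := hR
  exact ⟨y, h hy, h1⟩

theorem R2.mono {x : V} {Z Z' : Finset V} (h : Z ⊆ Z') (hR : R2 G x Z) : R2 G x Z' := by
  obtain ⟨y, hy, z, hz, h1⟩ := hR
  exact ⟨y, h hy, z, h hz, h1⟩

theorem R2.r1 {x : V} {Z : Finset V} (hR : R2 G x Z) : R1 G x Z := by
  obtain ⟨y, hy, z, hz, h1⟩ := hR
  exact ⟨y, hy, h1.1⟩

theorem SS.mono {n : ℕ} {x : V} {Z Z' : Finset V} (h : Z ⊆ Z') (hR : SS n G x Z) :
    SS n G x Z' := by
  obtain ⟨u, l, h1, h2, h3, h4⟩ := hR
  exact ⟨u, l, h1, h2, fun i hi => h (h3 i hi), h h4⟩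

theorem EE.mono {n p : ℕ} {x : V} {Z Z' : Finset V} (h : Z ⊆ Z') (hR : EE n p G x Z) :
    EE n p G x Z' := by
  obtain ⟨u, l, w, h1, h2, h3, h4, h5, h6, h7⟩ := hR
  exact ⟨u, l, w, h1, h2, h3, h4, fun i hi => h (h5 i hi), h h6, h h7⟩

section grafts

variable {x y : V} {Zi Zj Z' : Finset V}

/-- (t2) -/
theorem graft_R2 (hi : Zi ⊆ Z') (hy : y ∈ Z') (hxy : G.Adj x y)
    (hxi : ∀ a ∈ Zi, ¬ G.Adj a x) (h : R1 G y Zi) : R2 G x Z' := by
  obtain ⟨z, hz, h1⟩ := h
  exact ⟨y, hy, z, hi hz, hxy, h1, fun h => hxi z hz h.symm⟩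

/-- from a triple `z y x` and a leaf `w` -/
theorem SS_two {x y z w : V} {Z : Finset V} (hy : y ∈ Z) (hz : z ∈ Z) (hw : w ∈ Z)
    (hxy : G.Adj x y) (hyz : G.Adj y z) (hxz : ¬ G.Adj x z) (hxw : G.Adj x w)
    (hyw : ¬ G.Adj w y) (hzw : ¬ G.Adj w z) : SS 2 G x Z := by
  refine ⟨fun i => if i = 0 then z else if i = 1 then y else x, w, ⟨?_, ?_⟩, ?_, ?_, hw⟩
  · intro i j hi hj
    interval_cases i <;> interval_cases j <;>
      simp [hxy, hxy.symm, hyz, hyz.symm, hxz, fun h : G.Adj z x => hxz h.symm,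
        G.loopless.irrefl] <;> exact fun h => hxz h.symm
  · intro i hi
    interval_cases i <;> simp [hyw, hzw, hxw.symm]
  · simp
  · intro i hi
    interval_cases i <;> simp [hy, hz]

/-- (t3) -/
theorem graft_S_of_R1 (hi : Zi ⊆ Z') (hj : Zj ⊆ Z') (hy : y ∈ Z') (hxy : G.Adj x y)
    (hxi : ∀ a ∈ Zi, ¬ G.Adj a x) (hyj : ∀ a ∈ Zj, ¬ G.Adj a y)
    (hij : ∀ a ∈ Zi, ∀ b ∈ Zj, ¬ G.Adj a b) (h1 : R1 G y Zi) (h2 : R1 G x Zj) :
    SS 2 G x Z' := by
  obtain ⟨z, hz, h3⟩ := h1
  obtain ⟨w, hw, h4⟩ := h2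
  exact SS_two hy (hi hz) (hj hw) hxy h3 (fun h => hxi z hz h.symm) h4 (hyj w hw)
    (fun h => hij z hz w hw h.symm)

/-- (t4) -/
theorem graft_S_of_R2 (hj : Zj ⊆ Z') (hy : y ∈ Z') (hxy : G.Adj x y)
    (hyj : ∀ a ∈ Zj, ¬ G.Adj a y) (h2 : R2 G x Zj) : SS 2 G x Z' := by
  obtain ⟨y', hy', z, hz, h3, h4, h5⟩ := h2
  exact SS_two (hj hy') (hj hz) hy h3 h4 h5 hxy (fun h => hyj y' hy' h.symm)
    (fun h => hyj z hz h.symm)

theorem Pth_extend {n : ℕ} {u : ℕ → V} {l : V} (hn : 2 ≤ n) (h : Pth G n u l)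
    (hx : G.Adj x (u n)) (hxu : ∀ i, i < n → ¬ G.Adj (u i) x) (hxl : ¬ G.Adj l x) :
    Pth G (n + 1) (fun i => if i ≤ n then u i else x) l := by
  obtain ⟨h1, h2⟩ := h
  refine ⟨?_, ?_⟩
  · intro i j hi hj
    by_cases h3 : i ≤ n
    · by_cases h4 : j ≤ n
      · simp only [h3, h4, if_true]
        exact h1 i j h3 h4
      · simp only [h3, h4, if_true, if_false]
        by_cases h5 : i = n
        · subst h5
          constructor
          · intro _; left; omega
          · intro _; exact hx.symm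
        · constructor
          · intro h6
            exact absurd h6 (hxu i (by omega))
          · intro h6
            exfalso; omega
    · by_cases h4 : j ≤ n
      · simp only [h3, h4, if_true, if_false]
        by_cases h5 : j = n
        · subst h5
          constructor
          · intro _; right; omega
          · intro _; exact hx
        · constructor
          · intro h6
            exact absurd h6.symm (hxu j (by omega))
          · intro h6
            exfalso; omega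
      · simp only [h3, h4, if_false]
        constructor
        · intro h6
          exact absurd h6 (G.loopless.irrefl _)
        · intro h6
          exfalso; omega
  · intro i hi
    by_cases h3 : i ≤ n
    · simp only [h3, if_true]
      exact h2 i h3
    · simp only [h3, if_false]
      constructor
      · intro h6; exact absurd h6 hxl
      · intro h6; exfalso; omega

/-- (t5) -/
theorem graft_S {n : ℕ} (hn : 2 ≤ n) (hi : Zi ⊆ Z') (hy : y ∈ Z') (hxy : G.Adj x y)
    (hxi : ∀ a ∈ Zi, ¬ G.Adj a x) (h : SS n G y Zi) : SS (n + 1) G x Z' := by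
  obtain ⟨u, l, h1, h2, h3, h4⟩ := h
  refine ⟨fun i => if i ≤ n then u i else x, l, ?_, ?_, ?_, hi h4⟩
  · exact Pth_extend hn h1 (by rw [h2]; exact hxy) (fun i hi' => hxi _ (h3 i hi')) (hxi l h4)
  · simp
  · intro i hi'
    have h5 : i ≤ n := by omega
    simp only [h5, if_true]
    by_cases h6 : i = n
    · rw [h6, h2]; exact hy
    · exact hi (h3 i (by omega))

/-- (t7) -/
theorem graft_E {n : ℕ} (hj : Zj ⊆ Z') (hy : y ∈ Z') (hxy : G.Adj x y)
    (hyj : ∀ a ∈ Zj, ¬ G.Adj a y) (h : SS n G x Zj) : EE n n G x Z' := by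
  obtain ⟨u, l, h1, h2, h3, h4⟩ := h
  refine ⟨u, l, y, h1, ?_, hyj l h4, h2, fun i hi => hj (h3 i hi), hj h4, hy⟩
  intro i hi
  by_cases h5 : i = n
  · subst h5
    rw [h2]
    exact ⟨fun _ => rfl, fun _ => hxy.symm⟩
  · constructor
    · intro h6
      exact absurd h6.symm (hyj _ (h3 i (by omega)))
    · intro h6; exact absurd h6 h5

/-- (t8) -/
theorem graft_E1 {n p : ℕ} (hn : 2 ≤ n) (hp : p ≤ n) (hi : Zi ⊆ Z') (hy : y ∈ Z')
    (hxy : G.Adj x y) (hxi : ∀ a ∈ Zi, ¬ G.Adj a x) (h : EE n p G y Zi) :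
    EE (n + 1) p G x Z' := by
  obtain ⟨u, l, w, h1, h2, h3, h4, h5, h6, h7⟩ := h
  refine ⟨fun i => if i ≤ n then u i else x, l, w, ?_, ?_, h3, ?_, ?_, hi h6, hi h7⟩
  · exact Pth_extend hn h1 (by rw [h4]; exact hxy) (fun i hi' => hxi _ (h5 i hi')) (hxi l h6)
  · intro i hi'
    by_cases h8 : i ≤ n
    · simp only [h8, if_true]
      exact h2 i h8
    · simp only [h8, if_false]
      constructor
      · intro h9; exact absurd h9 (hxi w h7)
      · intro h9; exfalso; omega
  · simp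
  · intro i hi'
    have h8 : i ≤ n := by omega
    simp only [h8, if_true]
    by_cases h9 : i = n
    · rw [h9, h4]; exact hy
    · exact hi (h5 i (by omega))

end grafts

/-- `T j` has no twins -/
theorem twin {j : ℕ} (hj : 1 ≤ j) {x y : ℕ} (hy : y < j + 7) (hxy : x < y)
    (h : ∀ z : ℕ, z < j + 7 → ((tadj j x z ∨ tadj j z x) ↔ (tadj j y z ∨ tadj j z y))) :
    False := by
  rcases Nat.lt_or_ge y (j + 5) with h1 | h1
  · have a1 := (h (x + 1) (by omega)).1 (Or.inl (Or.inl ⟨rfl, by omega⟩))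
    have a2 : y = x + 2 := by
      unfold tadj at a1; omega
    by_cases h2 : y + 1 ≤ j + 4
    · have a3 := (h (y + 1) (by omega)).2 (Or.inl (Or.inl ⟨rfl, by omega⟩))
      unfold tadj at a3; omega
    · have a3 := (h (x - 1) (by omega)).1 (Or.inr (Or.inl ⟨by omega, by omega⟩))
      unfold tadj at a3; omega
  · by_cases h2 : y = j + 5
    · have a1 := (h 2 (by omega)).2 (Or.inr (Or.inr (Or.inl ⟨rfl, h2⟩)))
      have a2 : x = 1 ∨ x = 3 := by
        unfold tadj at a1; omega
      rcases a2 with a2 | a2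
      · have a3 := (h 0 (by omega)).1 (Or.inr (Or.inl ⟨by omega, by omega⟩))
        unfold tadj at a3; omega
      · have a3 := (h 4 (by omega)).1 (Or.inl (Or.inl ⟨by omega, by omega⟩))
        unfold tadj at a3; omega
    · have h3 : y = j + 6 := by omega
      have a1 := (h (j + 2) (by omega)).2 (Or.inr (Or.inr (Or.inr ⟨rfl, h3⟩)))
      have a2 : x = j + 1 ∨ x = j + 3 := by
        unfold tadj at a1; omega
      rcases a2 with a2 | a2
      · have a3 := (h j (by omega)).1 (Or.inr (Or.inl ⟨by omega, by omega⟩))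
        unfold tadj at a3; omega
      · have a3 := (h (j + 4) (by omega)).1 (Or.inl (Or.inl ⟨by omega, by omega⟩))
        unfold tadj at a3; omega

/-- An induced copy of `T j` from a path with two leaves. -/
theorem T_of_EE {j : ℕ} (hj : 1 ≤ j) {u : ℕ → V} {l w : V} (h : Pth G (j + 4) u l)
    (hw : ∀ i, i ≤ j + 4 → (G.Adj w (u i) ↔ i = j + 2)) (hlw : ¬ G.Adj l w) :
    Nonempty (T j ↪g G) := by
  obtain ⟨h1, h2⟩ := h
  set f : Fin (j + 7) → V := fun x =>
    if (x : ℕ) ≤ j + 4 then u x else if (x : ℕ) = j + 5 then l else w with hf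
  have fu : ∀ x : Fin (j + 7), (x : ℕ) ≤ j + 4 → f x = u x := fun x hx => if_pos hx
  have fl : ∀ x : Fin (j + 7), (x : ℕ) = j + 5 → f x = l := fun x hx => by
    simp only [hf]
    rw [if_neg (by omega), if_pos hx]
  have fw : ∀ x : Fin (j + 7), (x : ℕ) = j + 6 → f x = w := fun x hx => by
    simp only [hf]
    rw [if_neg (by omega), if_neg (by omega)]
  have hadj : ∀ x y : Fin (j + 7), G.Adj (f x) (f y) ↔ (T j).Adj x y := by
    intro x y
    show G.Adj (f x) (f y) ↔ (tadj j x y ∨ tadj j y x)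
    unfold tadj
    have hx := x.2
    have hy := y.2
    have cx : (x : ℕ) ≤ j + 4 ∨ (x : ℕ) = j + 5 ∨ (x : ℕ) = j + 6 := by omega
    have cy : (y : ℕ) ≤ j + 4 ∨ (y : ℕ) = j + 5 ∨ (y : ℕ) = j + 6 := by omega
    rcases cx with cx | cx | cx <;> rcases cy with cy | cy | cy
    · rw [fu x cx, fu y cy, h1 _ _ cx cy]
      omega
    · rw [fu x cx, fl y cy, G.adj_comm, h2 _ cx]
      omega
    · rw [fu x cx, fw y cy, G.adj_comm, hw _ cx]
      omega
    · rw [fl x cx, fu y cy, h2 _ cy]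
      omega
    · rw [fl x cx, fl y cy]
      constructor
      · intro h; exact absurd h (G.loopless.irrefl _)
      · intro h; exfalso; omega
    · rw [fl x cx, fw y cy]
      constructor
      · intro h; exact absurd h hlw
      · intro h; exfalso; omega
    · rw [fw x cx, fu y cy, hw _ cy]
      omega
    · rw [fw x cx, fl y cy]
      constructor
      · intro h; exact absurd h.symm hlw
      · intro h; exfalso; omega
    · rw [fw x cx, fw y cy]
      constructor
      · intro h; exact absurd h (G.loopless.irrefl _)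
      · intro h; exfalso; omega
  have hinj : Function.Injective f := by
    intro x y hxy
    have key : ∀ z : Fin (j + 7), (T j).Adj x z ↔ (T j).Adj y z := by
      intro z
      rw [← hadj, ← hadj, hxy]
    have key' : ∀ z : ℕ, z < j + 7 → ((tadj j x z ∨ tadj j z x) ↔ (tadj j y z ∨ tadj j z y)) :=
      fun z hz => key ⟨z, hz⟩
    apply Fin.ext
    rcases Nat.lt_trichotomy (x : ℕ) y with h | h | h
    · exact (twin hj y.2 h key').elim
    · exact h
    · exact (twin hj x.2 h (fun z hz => (key' z hz).symm)).elim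
  exact ⟨⟨⟨f, hinj⟩, fun {x y} => hadj x y⟩⟩

/-- (t6) -/
theorem T_of_SS {n n' : ℕ} (hn : 2 ≤ n) (hn' : 2 ≤ n') {x y : V} {Zi Zj : Finset V}
    (hxy : G.Adj x y) (hxi : ∀ a ∈ Zi, ¬ G.Adj a x) (hyj : ∀ a ∈ Zj, ¬ G.Adj a y)
    (hij : ∀ a ∈ Zi, ∀ b ∈ Zj, ¬ G.Adj a b) (h : SS n G y Zi) (h' : SS n' G x Zj) :
    Nonempty (T (n + n' - 3) ↪g G) := by
  obtain ⟨u, l, ⟨h1, h2⟩, h3, h4, h5⟩ := h
  obtain ⟨u', l', ⟨h1', h2'⟩, h3', h4', h5'⟩ := h'
  have e : n + n' - 3 + 4 = n + n' + 1 := by omega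
  have hcross : ∀ i i', i ≤ n → i' ≤ n' → (G.Adj (u i) (u' i') ↔ i = n ∧ i' = n') := by
    intro i i' hi hi'
    by_cases h6 : i = n
    · by_cases h7 : i' = n'
      · subst h6 h7
        rw [h3, h3']
        exact ⟨fun _ => ⟨rfl, rfl⟩, fun _ => hxy.symm⟩
      · subst h6
        rw [h3]
        constructor
        · intro h; exact absurd h.symm (hyj _ (h4' i' (by omega)))
        · intro h; exact absurd h.2 h7
    · by_cases h7 : i' = n'
      · subst h7
        rw [h3']
        constructor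
        · intro h; exact absurd h (hxi _ (h4 i (by omega)))
        · intro h; exact absurd h.1 h6
      · constructor
        · intro h; exact absurd h (hij _ (h4 i (by omega)) _ (h4' i' (by omega)))
        · intro h; exact absurd h.1 h6
  have hlu' : ∀ i', i' ≤ n' → ¬ G.Adj l (u' i') := by
    intro i' hi' h
    by_cases h7 : i' = n'
    · subst h7; rw [h3'] at h; exact hxi l h5 h
    · exact hij l h5 _ (h4' i' (by omega)) h
  have hl'u : ∀ i, i ≤ n → ¬ G.Adj l' (u i) := by
    intro i hi h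
    by_cases h7 : i = n
    · subst h7; rw [h3] at h; exact hyj l' h5' h
    · exact hij _ (h4 i (by omega)) l' h5' h.symm
  refine T_of_EE (j := n + n' - 3) (u := fun i => if i ≤ n then u i else u' (n + n' + 1 - i))
    (l := l) (w := l') (by omega) ⟨?_, ?_⟩ ?_ (hij l h5 l' h5')
  · intro i j hi hj
    rw [e] at hi hj
    by_cases h6 : i ≤ n
    · by_cases h7 : j ≤ n
      · simp only [h6, h7, if_true]
        exact h1 i j h6 h7
      · simp only [h6, h7, if_true, if_false]
        rw [hcross _ _ h6 (by omega)]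
        omega
    · by_cases h7 : j ≤ n
      · simp only [h6, h7, if_true, if_false]
        rw [G.adj_comm, hcross _ _ h7 (by omega)]
        omega
      · simp only [h6, h7, if_false]
        rw [h1' _ _ (by omega) (by omega)]
        omega
  · intro i hi
    rw [e] at hi
    by_cases h6 : i ≤ n
    · simp only [h6, if_true]
      exact h2 i h6
    · simp only [h6, if_false]
      constructor
      · intro h; exact absurd h (hlu' _ (by omega))
      · intro h; exfalso; omega
  · intro i hi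
    rw [e] at hi
    by_cases h6 : i ≤ n
    · simp only [h6, if_true]
      constructor
      · intro h; exact absurd h (hl'u _ h6)
      · intro h; exfalso; omega
    · simp only [h6, if_false]
      rw [h2' _ (by omega)]
      omega

end Pool.Agent.TH149.WR.Block
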