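import Mathlib

set_option autoImplicit false

/-!
# Weak randomness and the Erdos-Hajnal property: definitions
-/

namespace Pool.Agent.TH149.WR

open Finset MeasureTheory Filter Topology

/-- A class of finite graphs, given by its members on the vertex sets `Fin n`. -/
abbrev GClass := ∀ n : ℕ, SimpleGraph (Fin n) → Prop

/-- Closed under isomorphism and under induced subgraphs. -/
def Hereditary (F : GClass) : Prop :=
  ∀ (m n : ℕ) (H : SimpleGraph (Fin m)) (G : SimpleGraph (Fin n)),
    Nonempty (H ↪g G) → F n G → F m H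

/-- The Erdos-Hajnal property. -/
def EHP (F : GClass) : Prop :=
  ∃ c : ℝ, 0 < c ∧ ∀ (n : ℕ) (G : SimpleGraph (Fin n)), F n G →
    ∃ S : Finset (Fin n), (G.IsClique (S : Set (Fin n)) ∨ G.IsIndepSet (S : Set (Fin n))) ∧
      (n : ℝ) ^ c ≤ (S.card : ℝ)

/-- The members of `F` without an induced copy of `H`. -/
def Fr (F : GClass) {W : Type} (H : SimpleGraph W) : GClass :=
  fun n G => F n G ∧ ¬ Nonempty (H ↪g G)

/-- The lexicographic product: every vertex of `H` is replaced by a copy of `K`. -/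
def lex {A B : Type} (H : SimpleGraph A) (K : SimpleGraph B) : SimpleGraph (A × B) where
  Adj p q := H.Adj p.1 q.1 ∨ (p.1 = q.1 ∧ K.Adj p.2 q.2)
  symm := ⟨fun _ _ h => h.imp (fun h => h.symm) (fun h => ⟨h.1.symm, h.2.symm⟩)⟩
  loopless := ⟨fun _ h => h.elim (fun h => H.loopless.irrefl _ h) (fun h => K.loopless.irrefl _ h.2)⟩

/-- Modules: every vertex outside is adjacent to all or to none of the vertices inside. -/
def IsModule {W : Type} (H : SimpleGraph W) (M : Set W) : Prop :=
  ∀ v, v ∉ M → ∀ x ∈ M, ∀ y ∈ M, (H.Adj v x ↔ H.Adj v y)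

/-- Prime graphs: all modules are trivial. -/
def IsPrime {W : Type} (H : SimpleGraph W) : Prop :=
  ∀ M : Set W, IsModule H M → M.Subsingleton ∨ M = Set.univ

/-- Half of the edges of `T j`. -/
def tadj (j x y : ℕ) : Prop :=
  (x + 1 = y ∧ y ≤ j + 4) ∨ (x = 2 ∧ y = j + 5) ∨ (x = j + 2 ∧ y = j + 6)

/-- The tree `T j`: the path `0, 1, …, j + 4`, with a further leaf `j + 5` at the vertex `2` and a
further leaf `j + 6` at the vertex `j + 2`. -/
def T (j : ℕ) : SimpleGraph (Fin (j + 7)) where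
  Adj x y := tadj j x y ∨ tadj j y x
  symm := ⟨fun x y h => h.symm⟩
  loopless := ⟨fun x h => by unfold tadj at h; omega⟩

/-- Products of the first `ℓ` sizes. -/
def Mm (m : ℕ → ℕ) : ℕ → ℕ
  | 0 => 1
  | ℓ + 1 => Mm m ℓ * m ℓ

/-- The iterated lexicographic product of `Q 0, …, Q (ℓ-1)`. -/
def It (m : ℕ → ℕ) (Q : ∀ ℓ, SimpleGraph (Fin (m ℓ))) : ∀ ℓ, SimpleGraph (Fin (Mm m ℓ))
  | 0 => ⊥
  | ℓ + 1 => (lex (It m Q ℓ) (Q ℓ)).comap finProdFinEquiv.symm

/-- A graphon: a symmetric measurable function `[0,1]² → [0,1]`. -/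
structure Graphon where
  W : unitInterval → unitInterval → ℝ
  symm : ∀ x y, W x y = W y x
  meas : Measurable (Function.uncurry W)
  mem : ∀ x y, W x y ∈ Set.Icc (0 : ℝ) 1

/-- The probability that the `W`-random graph on the points `x 0, …, x (h-1)` is `H`. -/
noncomputable def Graphon.fac (W : Graphon) {h : ℕ} (H : SimpleGraph (Fin h))
    (x : Fin h → unitInterval) : ℝ :=
  open Classical in
  ∏ i : Fin h, ∏ j ∈ Finset.Ioi i,
    (if H.Adj i j then W.W (x i) (x j) else 1 - W.W (x i) (x j))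

/-- The induced density of `H` in the subgraphon of `W` on `A`, where `A` carries the normalised
Lebesgue measure. The case `A = [0,1]` is the induced density of `H` in `W`. -/
noncomputable def Graphon.dens (W : Graphon) (A : Set unitInterval) {h : ℕ}
    (H : SimpleGraph (Fin h)) : ℝ :=
  (∫ x in Set.univ.pi (fun _ : Fin h => A), W.fac H x) / (volume A).toReal ^ h

/-- The induced density of `H` in a finite graph `G`: the proportion of the injections
`Fin h → Fin n` that are isomorphisms of `H` onto an induced subgraph of `G`. -/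
noncomputable def gdens {h n : ℕ} (H : SimpleGraph (Fin h)) (G : SimpleGraph (Fin n)) : ℝ :=
  (Nat.card (H ↪g G) : ℝ) / (n.descFactorial h : ℝ)

/-- `W` is a graphon of `F`: the limit of a sequence of graphs of `F` whose numbers of vertices
tend to infinity. -/
def IsGraphonOf (F : GClass) (W : Graphon) : Prop :=
  ∃ (N : ℕ → ℕ) (G : ∀ i, SimpleGraph (Fin (N i))), (∀ i, F (N i) (G i)) ∧
    Tendsto N atTop atTop ∧
    ∀ (h : ℕ) (H : SimpleGraph (Fin h)),
      Tendsto (fun i => gdens H (G i)) atTop (𝓝 (W.dens Set.univ H))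

/-- The subgraphon of `W` on `A` is weakly random: all its subgraphons have the same graphs of
positive density. -/
def Graphon.WeaklyRandomOn (W : Graphon) (A : Set unitInterval) : Prop :=
  ∀ B ⊆ A, MeasurableSet B → 0 < volume B →
    ∀ (h : ℕ) (H : SimpleGraph (Fin h)), 0 < W.dens B H ↔ 0 < W.dens A H

/-- The class `WR`: every graphon of `F` has a weakly random subgraphon. -/
def HasWR (F : GClass) : Prop :=
  ∀ W : Graphon, IsGraphonOf F W →
    ∃ A : Set unitInterval, MeasurableSet A ∧ 0 < volume A ∧ W.WeaklyRandomOn A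

/-- The cell of level `ℓ` which contains `x`. -/
noncomputable def dig (m : ℕ → ℕ) (ℓ : ℕ) (x : unitInterval) : ℕ := ⌊(x : ℝ) * (Mm m ℓ : ℝ)⌋₊

/-- The infinite iterated lexicographic product, on the unit interval. -/
def WAdj (m : ℕ → ℕ) (Q : ∀ ℓ, SimpleGraph (Fin (m ℓ))) (x y : unitInterval) : Prop :=
  ∃ (ℓ : ℕ) (a b : Fin (Mm m ℓ)), dig m ℓ x = a ∧ dig m ℓ y = b ∧ (It m Q ℓ).Adj a b

theorem measurable_dig (m : ℕ → ℕ) (ℓ : ℕ) : Measurable (dig m ℓ) := by
  unfold dig
  exact Nat.measurable_floor.comp (measurable_subtype_coe.mul_const _)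

theorem measurableSet_WAdj (m : ℕ → ℕ) (Q : ∀ ℓ, SimpleGraph (Fin (m ℓ))) :
    MeasurableSet {p : unitInterval × unitInterval | WAdj m Q p.1 p.2} := by
  have : {p : unitInterval × unitInterval | WAdj m Q p.1 p.2} =
      ⋃ ℓ : ℕ, ⋃ a : Fin (Mm m ℓ), ⋃ b : Fin (Mm m ℓ), ⋃ (_ : (It m Q ℓ).Adj a b),
        ((dig m ℓ ∘ Prod.fst) ⁻¹' {(a : ℕ)} ∩ (dig m ℓ ∘ Prod.snd) ⁻¹' {(b : ℕ)}) := by
    ext p
    simp only [WAdj, Set.mem_ofPred_eq, Set.mem_iUnion, Set.mem_inter_iff, Set.mem_preimage,
      Set.mem_singleton_iff, Function.comp_apply]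
    constructor
    · rintro ⟨ℓ, a, b, h1, h2, h3⟩
      exact ⟨ℓ, a, b, h3, h1, h2⟩
    · rintro ⟨ℓ, a, b, h3, h1, h2⟩
      exact ⟨ℓ, a, b, h1, h2, h3⟩
  rw [this]
  refine MeasurableSet.iUnion fun ℓ => MeasurableSet.iUnion fun a => MeasurableSet.iUnion fun b =>
    MeasurableSet.iUnion fun _ => MeasurableSet.inter ?_ ?_
  · exact ((measurable_dig m ℓ).comp measurable_fst) (measurableSet_singleton _)
  · exact ((measurable_dig m ℓ).comp measurable_snd) (measurableSet_singleton _)

/-- The graphon of the infinite iterated lexicographic product. -/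
noncomputable def Wq (m : ℕ → ℕ) (Q : ∀ ℓ, SimpleGraph (Fin (m ℓ))) : Graphon where
  W x y := open Classical in if WAdj m Q x y then 1 else 0
  symm x y := by
    have : WAdj m Q x y ↔ WAdj m Q y x := by
      constructor
      · rintro ⟨ℓ, a, b, h1, h2, h3⟩
        exact ⟨ℓ, b, a, h2, h1, h3.symm⟩
      · rintro ⟨ℓ, a, b, h1, h2, h3⟩
        exact ⟨ℓ, b, a, h2, h1, h3.symm⟩
    classical exact if_congr this rfl rfl
  meas := by
    classical
    exact Measurable.ite (measurableSet_WAdj m Q) measurable_const measurable_const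
  mem x y := by
    by_cases h : WAdj m Q x y
    · rw [if_pos h]; simp
    · rw [if_neg h]; simp

end Pool.Agent.TH149.WR
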