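import Pool.Agent.TH149.WR.Game
import Pool.Agent.TH828.J1054
import Pool.Agent.TH370.J1055

set_option autoImplicit false

/-!
# The Erdos-Hajnal property without the trees `T j`, `k ≤ j ≤ N`, and their complements
-/

namespace Pool.Agent.TH149.WR

open Finset

theorem pair_of_sparse {n : ℕ} (G : SimpleGraph (Fin n)) [DecidableRel G.Adj] {k N : ℕ}
    (hN : 1 ≤ N)
    (hblock : ∀ (V : Type) [Fintype V] [DecidableEq V] (G : SimpleGraph V) [DecidableRel G.Adj]
      (U : Finset V) (θ : ℕ), 1 ≤ θ → N * 3 ^ N * θ ≤ U.card →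
      (∀ v ∈ U, (U.filter (fun y => G.Adj v y)).card ≤ θ) →
      (∀ A ⊆ U, ∀ B ⊆ U, Disjoint A B → θ ≤ A.card → θ ≤ B.card →
        ∃ a ∈ A, ∃ b ∈ B, G.Adj a b) →
      ∃ j, k ≤ j ∧ j ≤ N ∧ Nonempty (T j ↪g G))
    (hfree : ∀ j, k ≤ j → j ≤ N → ¬ Nonempty (T j ↪g G)) (X : Finset (Fin n))
    (hX : 2 * (N * 3 ^ N) ≤ X.card)
    (hdeg : ∀ x ∈ X, 2 * (N * 3 ^ N) * (X.filter (fun y => G.Adj x y)).card ≤ X.card) :
    ∃ A ⊆ X, ∃ B ⊆ X, Disjoint A B ∧ X.card / (N * 3 ^ N) ≤ A.card ∧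
      X.card / (N * 3 ^ N) ≤ B.card ∧ (∀ a ∈ A, ∀ b ∈ B, ¬ G.Adj a b) := by
  by_contra hcon
  push Not at hcon
  set M := N * 3 ^ N with hM
  have hMpos : 0 < M := by positivity
  have h1 : 2 ≤ X.card / M := by
    rw [Nat.le_div_iff_mul_le hMpos]; exact hX
  obtain ⟨j, hj1, hj2, hj3⟩ := hblock (Fin n) G X (X.card / M) (by omega)
    (Nat.mul_div_le _ _)
    (fun v hv => by
      rw [Nat.le_div_iff_mul_le hMpos]
      have := hdeg v hv
      nlinarith)
    (fun A hA B hB hd hAc hBc => hcon A hA B hB hd hAc hBc)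
  exact hfree j hj1 hj2 hj3

theorem ehpT : S_ehpT := by
  classical
  intro k
  obtain ⟨N, hkN, hN, hblock⟩ := block k
  set M := N * 3 ^ N with hM
  have hMpos : 0 < M := by positivity
  obtain ⟨K, hK⟩ := Pool.Agent.TH828.J1054.rodl (k + 7) (T k) (2 * M)
  have hMR : (1 : ℝ) ≤ M := by exact_mod_cast hMpos
  have hKR : (0 : ℝ) ≤ K := by positivity
  have hε : (0 : ℝ) < 1 / (2 * M * (K + 1)) := by positivity
  obtain ⟨c, hc, hcc⟩ := Pool.Agent.TH370.J1055.pure _ hε
  refine ⟨N, hkN, c, hc, fun n G hfree => hcc n G ?_⟩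
  intro U hU
  have hTk : ¬ Nonempty (T k ↪g G) := (hfree k (le_refl _) hkN).1
  obtain ⟨X, hXU, hXne, hUX, hdeg⟩ := hK (Fin n) G hTk U (Finset.card_pos.1 (by omega))
  have hUXR : (U.card : ℝ) ≤ K * X.card := by exact_mod_cast hUX
  by_cases hXs : X.card < 2 * M
  · obtain ⟨x, hx, y, hy, hxy⟩ := Finset.one_lt_card.1 (show 1 < U.card by omega)
    have h1 : 1 / (2 * M * (K + 1)) * (U.card : ℝ) ≤ 1 := by
      rw [one_div, inv_mul_le_iff₀ (by positivity), mul_one]
      have h2 : (X.card : ℝ) ≤ 2 * M := by exact_mod_cast hXs.le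
      nlinarith [mul_nonneg hKR (sub_nonneg.2 h2)]
    refine ⟨{x}, by simpa using hx, {y}, by simpa using hy, ?_, ?_, ?_, ?_⟩
    · simpa using hxy
    · simpa using h1
    · simpa using h1
    · by_cases hadj : G.Adj x y
      · left; simpa using hadj
      · right; simpa using hadj
  · rw [not_lt] at hXs
    have hθ : 1 / (2 * M * (K + 1)) * (U.card : ℝ) ≤ ((X.card / M : ℕ) : ℝ) := by
      rw [one_div, inv_mul_le_iff₀ (by positivity)]
      have h1 : 2 ≤ X.card / M := by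
        rw [Nat.le_div_iff_mul_le hMpos]; exact hXs
      have h2 : X.card < M * (X.card / M) + M := by
        have h3 := Nat.div_add_mod X.card M
        have h4 := Nat.mod_lt X.card hMpos
        omega
      have h3 : (X.card : ℝ) ≤ M * ((X.card / M : ℕ) : ℝ) + M := by exact_mod_cast h2.le
      have h4 : (2 : ℝ) ≤ ((X.card / M : ℕ) : ℝ) := by exact_mod_cast h1
      have h5 : (X.card : ℝ) ≤ 2 * M * ((X.card / M : ℕ) : ℝ) := by nlinarith
      have h6 : (U.card : ℝ) ≤ K * (2 * M * ((X.card / M : ℕ) : ℝ)) :=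
        le_trans hUXR (mul_le_mul_of_nonneg_left h5 hKR)
      have h7 : (0 : ℝ) ≤ 2 * M * ((X.card / M : ℕ) : ℝ) := by positivity
      nlinarith
    rcases hdeg with hdeg | hdeg
    · obtain ⟨A, hA, B, hB, hd, hAc, hBc, hno⟩ := pair_of_sparse G hN hblock
        (fun j h1 h2 => (hfree j h1 h2).1) X hXs hdeg
      exact ⟨A, hA.trans hXU, B, hB.trans hXU, hd, le_trans hθ (by exact_mod_cast hAc),
        le_trans hθ (by exact_mod_cast hBc), Or.inr hno⟩
    · obtain ⟨A, hA, B, hB, hd, hAc, hBc, hno⟩ := pair_of_sparse Gᶜ hN hblock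
        (fun j h1 h2 => by
          rintro ⟨f⟩
          have g := SimpleGraph.Embedding.complEquiv f
          rw [compl_compl] at g
          exact (hfree j h1 h2).2 ⟨g⟩) X hXs hdeg
      refine ⟨A, hA.trans hXU, B, hB.trans hXU, hd, le_trans hθ (by exact_mod_cast hAc),
        le_trans hθ (by exact_mod_cast hBc), Or.inl ?_⟩
      intro a ha b hb
      have h1 := hno a ha b hb
      rw [SimpleGraph.compl_adj] at h1
      by_contra h2
      exact h1 ⟨fun h => Finset.disjoint_left.1 hd ha (h ▸ hb), h2⟩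

end Pool.Agent.TH149.WR
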