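import Pool.Agent.TH149.WR.Block

set_option autoImplicit false
set_option linter.unusedSectionVars false

/-!
# The strategy in the block game
-/

namespace Pool.Agent.TH149.WR.Block

open Finset

variable {V : Type} [Fintype V] [DecidableEq V] {G : SimpleGraph V} [DecidableRel G.Adj]
variable {θ : ℕ} {U : Finset V} {I : Finset ℕ} {X Z : ℕ → Finset V}

/-- the hypotheses on the graph -/
structure Coh (G : SimpleGraph V) [DecidableRel G.Adj] (θ : ℕ) (U : Finset V) : Prop where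
  pos : 1 ≤ θ
  deg : ∀ v ∈ U, (U.filter (fun y => G.Adj v y)).card ≤ θ
  coh : ∀ A ⊆ U, ∀ B ⊆ U, Disjoint A B → θ ≤ A.card → θ ≤ B.card →
      ∃ a ∈ A, ∃ b ∈ B, G.Adj a b

theorem Sys.nonempty (hC : Coh G θ U) (S : Sys G θ U I X Z) {i : ℕ} (hi : i ∈ I) :
    (X i).Nonempty := by
  rw [← Finset.card_pos]
  refine lt_of_lt_of_le ?_ (S.size i hi)
  have := hC.pos
  positivity

/-- The step together with all its consequences for the types. -/
theorem step' (hC : Coh G θ U) (S : Sys G θ U I X Z) (i : ℕ) (hi : i ∈ I) (hI : 2 ≤ I.card) :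
    ∃ j ∈ I, j ≠ i ∧ ∃ X' Z' : ℕ → Finset V, Sys G θ U (I.erase i) X' Z' ∧
      (∀ l ∈ I.erase i, Ty (fun G x Z => R2 G x Z) G X Z l → Ty (fun G x Z => R2 G x Z) G X' Z' l) ∧
      (∀ l ∈ I.erase i, ∀ n, Ty (SS n) G X Z l → Ty (SS n) G X' Z' l) ∧
      (∀ l ∈ I.erase i, ∀ n p, Ty (EE n p) G X Z l → Ty (EE n p) G X' Z' l) ∧
      Ty (fun G x Z => R1 G x Z) G X' Z' j ∧
      (Ty (fun G x Z => R1 G x Z) G X Z i → Ty (fun G x Z => R2 G x Z) G X' Z' j) ∧
      (Ty (fun G x Z => R1 G x Z) G X Z i → Ty (fun G x Z => R1 G x Z) G X Z j →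
        Ty (SS 2) G X' Z' j) ∧
      (Ty (fun G x Z => R2 G x Z) G X Z j → Ty (SS 2) G X' Z' j) ∧
      (∀ n, 2 ≤ n → Ty (SS n) G X Z i → Ty (SS (n + 1)) G X' Z' j) ∧
      (∀ n, Ty (SS n) G X Z j → Ty (EE n n) G X' Z' j) ∧
      (∀ n p, 2 ≤ n → p ≤ n → Ty (EE n p) G X Z i → Ty (EE (n + 1) p) G X' Z' j) ∧
      (∀ n n', 2 ≤ n → 2 ≤ n' → Ty (SS n) G X Z i → Ty (SS n') G X Z j →
        Nonempty (T (n + n' - 3) ↪g G)) := by
  obtain ⟨j, hj, hji, X', Z', S', hext, hZij, hnb⟩ := step hC.pos hC.deg hC.coh S i hi hI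
  have hjI' : j ∈ I.erase i := Finset.mem_erase.2 ⟨hji, hj⟩
  have hXj : X' j ⊆ X j := (hext j hjI').1
  have hZj : Z j ⊆ Z' j := (hext j hjI').2
  have hxi : ∀ x ∈ X' j, ∀ a ∈ Z i, ¬ G.Adj a x := fun x hx a ha =>
    S.azx i hi j hj hji.symm a ha x (hXj hx)
  have hyj : ∀ y ∈ X i, ∀ a ∈ Z j, ¬ G.Adj a y := fun y hy a ha =>
    S.azx j hj i hi hji a ha y hy
  have hij : ∀ a ∈ Z i, ∀ b ∈ Z j, ¬ G.Adj a b := fun a ha b hb =>
    S.azz i hi j hj hji.symm a ha b hb
  refine ⟨j, hj, hji, X', Z', S', ?_, ?_, ?_, ?_, ?_, ?_, ?_, ?_, ?_, ?_, ?_⟩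
  · intro l hl h x hx
    exact (h x ((hext l hl).1 hx)).mono (hext l hl).2
  · intro l hl n h x hx
    exact (h x ((hext l hl).1 hx)).mono (hext l hl).2
  · intro l hl n p h x hx
    exact (h x ((hext l hl).1 hx)).mono (hext l hl).2
  · intro x hx
    obtain ⟨y, hy, hyZ, hxy⟩ := hnb x hx
    exact ⟨y, hyZ, hxy⟩
  · intro h x hx
    obtain ⟨y, hy, hyZ, hxy⟩ := hnb x hx
    exact graft_R2 hZij hyZ hxy (hxi x hx) (h y hy)
  · intro h h' x hx
    obtain ⟨y, hy, hyZ, hxy⟩ := hnb x hx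
    exact graft_S_of_R1 hZij hZj hyZ hxy (hxi x hx) (hyj y hy) hij (h y hy) (h' x (hXj hx))
  · intro h x hx
    obtain ⟨y, hy, hyZ, hxy⟩ := hnb x hx
    exact graft_S_of_R2 hZj hyZ hxy (hyj y hy) (h x (hXj hx))
  · intro n hn h x hx
    obtain ⟨y, hy, hyZ, hxy⟩ := hnb x hx
    exact graft_S hn hZij hyZ hxy (hxi x hx) (h y hy)
  · intro n h x hx
    obtain ⟨y, hy, hyZ, hxy⟩ := hnb x hx
    exact graft_E hZj hyZ hxy (hyj y hy) (h x (hXj hx))
  · intro n p hn hp h x hx
    obtain ⟨y, hy, hyZ, hxy⟩ := hnb x hx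
    exact graft_E1 hn hp hZij hyZ hxy (hxi x hx) (h y hy)
  · intro n n' hn hn' h h'
    obtain ⟨x, hx⟩ := S'.nonempty hC hjI'
    obtain ⟨y, hy, hyZ, hxy⟩ := hnb x hx
    exact T_of_SS hn hn' hxy (hxi x hx) (hyj y hy) hij (h y hy) (h' x (hXj hx))

/-- Walking with a root. -/
theorem walk (hC : Coh G θ U) : ∀ (c : ℕ) (I : Finset ℕ) (X Z : ℕ → Finset V) (n r : ℕ),
    Sys G θ U I X Z → 2 ≤ n → r ∈ I → Ty (SS n) G X Z r → c + 1 ≤ I.card →
    ∃ (I' : Finset ℕ) (X' Z' : ℕ → Finset V) (r' : ℕ), Sys G θ U I' X' Z' ∧ r' ∈ I' ∧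
      Ty (SS (n + c)) G X' Z' r' ∧ I'.card + c = I.card := by
  intro c
  induction c with
  | zero =>
    intro I X Z n r S hn hr hT _
    exact ⟨I, X, Z, r, S, hr, hT, rfl⟩
  | succ c ih =>
    intro I X Z n r S hn hr hT hc
    obtain ⟨j, hj, hji, X', Z', S', _, _, _, _, _, _, _, h5, _⟩ :=
      step' hC S r hr (by omega)
    have hcard : (I.erase r).card = I.card - 1 := Finset.card_erase_of_mem hr
    obtain ⟨I', X'', Z'', r', S'', hr', hT', hc'⟩ := ih (I.erase r) X' Z' (n + 1) j S' (by omega)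
      (Finset.mem_erase.2 ⟨hji, hj⟩) (h5 n hn hT) (by omega)
    refine ⟨I', X'', Z'', r', S'', hr', ?_, by omega⟩
    have : n + 1 + c = n + (c + 1) := by ring
    rw [← this]; exact hT'

/-- Two roots. -/
theorem final (hC : Coh G θ U) : ∀ (c : ℕ) (I : Finset ℕ) (X Z : ℕ → Finset V) (n r j : ℕ),
    I.card = c → Sys G θ U I X Z → 2 ≤ n → r ∈ I → j ∈ I → r ≠ j → Ty (SS n) G X Z r →
    Ty (SS 2) G X Z j → ∃ t, n - 1 ≤ t ∧ t ≤ n + c ∧ Nonempty (T t ↪g G) := by
  intro c
  induction c with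
  | zero =>
    intro I X Z n r j hc S hn hr
    rw [Finset.card_eq_zero] at hc
    rw [hc] at hr
    simp at hr
  | succ c ih =>
    intro I X Z n r j hc S hn hr hj hrj hTr hTj
    have h2 : 2 ≤ I.card := by
      have : ({r, j} : Finset ℕ) ⊆ I := by
        intro z hz
        rcases Finset.mem_insert.1 hz with rfl | hz
        · exact hr
        · rw [Finset.mem_singleton] at hz; rw [hz]; exact hj
      calc 2 = ({r, j} : Finset ℕ).card := (Finset.card_pair hrj).symm
        _ ≤ I.card := Finset.card_le_card this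
    obtain ⟨j', hj', hji', X', Z', S', _, hSS, _, _, _, _, _, h5, _, _, hT⟩ :=
      step' hC S r hr h2
    by_cases hjj : j' = j
    · subst hjj
      exact ⟨n + 2 - 3, by omega, by omega, hT n 2 hn (le_refl _) hTr hTj⟩
    · have hcard : (I.erase r).card = I.card - 1 := Finset.card_erase_of_mem hr
      obtain ⟨t, ht1, ht2, ht3⟩ := ih (I.erase r) X' Z' (n + 1) j' j (by omega) S' (by omega)
        (Finset.mem_erase.2 ⟨hji', hj'⟩) (Finset.mem_erase.2 ⟨hrj.symm, hj⟩) hjj
        (h5 n hn hTr) (hSS j (Finset.mem_erase.2 ⟨hrj.symm, hj⟩) 2 hTj)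
      exact ⟨t, by omega, by omega, ht3⟩

/-- A root with a further leaf. -/
theorem leafy (hC : Coh G θ U) (n r : ℕ) (hn : 3 ≤ n) (S : Sys G θ U I X Z) (hr : r ∈ I)
    (hI : 3 ≤ I.card) (h : Ty (EE n n) G X Z r) : Nonempty (T (n - 2) ↪g G) := by
  obtain ⟨j, hj, hji, X', Z', S', _, _, _, _, _, _, _, _, _, h8, _⟩ :=
    step' hC S r hr (by omega)
  have hcard : (I.erase r).card = I.card - 1 := Finset.card_erase_of_mem hr
  have hj' := Finset.mem_erase.2 ⟨hji, hj⟩
  obtain ⟨j2, hj2, hji2, X2, Z2, S2, _, _, _, _, _, _, _, _, _, h82, _⟩ :=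
    step' hC S' j hj' (by omega)
  have h9 := h82 (n + 1) n (by omega) (by omega) (h8 n n (by omega) (le_refl _) h)
  obtain ⟨x, hx⟩ := S2.nonempty hC (Finset.mem_erase.2 ⟨hji2, hj2⟩)
  obtain ⟨u, l, w, h1, h2, h3, _⟩ := h9 x hx
  have e : n + 1 + 1 = n - 2 + 4 := by omega
  have e2 : n - 2 + 2 = n := by omega
  rw [e] at h1 h2
  exact T_of_EE (by omega) h1 (by rw [e2]; exact h2) h3

/-- Phase A: getting a branch vertex. -/
theorem phaseA (hC : Coh G θ U) (n : ℕ) : ∀ (f : ℕ) (I R D : Finset ℕ) (X Z : ℕ → Finset V),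
    Sys G θ U I X Z → R ⊆ I → D ⊆ I → Disjoint D R → ((I \ R) \ D).card = 3 * f →
    2 ≤ D.card + f → (∀ i ∈ D, Ty (fun G x Z => R2 G x Z) G X Z i) →
    (∀ r ∈ R, Ty (SS n) G X Z r) →
    (∃ (I' : Finset ℕ) (X' Z' : ℕ → Finset V), Sys G θ U I' X' Z' ∧ R ⊆ I' ∧
      (∀ r ∈ R, Ty (SS n) G X' Z' r) ∧ (∃ j ∈ I', j ∉ R ∧ Ty (SS 2) G X' Z' j) ∧
      D.card + f ≤ (I' \ R).card + 1) ∨
    (∃ (I' : Finset ℕ) (X' Z' : ℕ → Finset V), Sys G θ U I' X' Z' ∧
      (∃ r ∈ R, r ∈ I' ∧ Ty (EE n n) G X' Z' r) ∧ D.card + f ≤ (I' \ R).card + 1) := by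
  intro f
  induction f with
  | zero =>
    intro I R D X Z S hR hD hDR hcard hf hTD hTR
    have hDe : I \ R = D := by
      have h1 : D ⊆ I \ R := fun x hx => Finset.mem_sdiff.2
        ⟨hD hx, fun h => Finset.disjoint_left.1 hDR hx h⟩
      have h2 : (I \ R) \ D = ∅ := by rw [← Finset.card_eq_zero]; simpa using hcard
      exact Finset.Subset.antisymm (Finset.sdiff_eq_empty_iff_subset.1 h2) h1
    obtain ⟨y, hy⟩ : D.Nonempty := by rw [← Finset.card_pos]; omega
    have hyR : y ∉ R := fun h => Finset.disjoint_left.1 hDR hy h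
    have hI2 : 2 ≤ I.card := le_trans (by omega) (Finset.card_le_card hD)
    obtain ⟨j, hj, hji, X', Z', S', _, hSS, _, _, _, _, h4, _, h7, _, _⟩ :=
      step' hC S y (hD hy) hI2
    have hcnt : D.card + 0 ≤ ((I.erase y) \ R).card + 1 := by
      have h1 : (I.erase y) \ R = D.erase y := by
        rw [← hDe]
        ext z; simp only [Finset.mem_sdiff, Finset.mem_erase]; tauto
      rw [h1, Finset.card_erase_of_mem hy]
      omega
    have hRs : R ⊆ I.erase y := fun r hr => Finset.mem_erase.2 ⟨fun h => hyR (h ▸ hr), hR hr⟩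
    by_cases hjR : j ∈ R
    · right
      exact ⟨I.erase y, X', Z', S', ⟨j, hjR, Finset.mem_erase.2 ⟨hji, hj⟩, h7 n (hTR j hjR)⟩, hcnt⟩
    · left
      have hjD : j ∈ D := by rw [← hDe]; exact Finset.mem_sdiff.2 ⟨hj, hjR⟩
      exact ⟨I.erase y, X', Z', S', hRs, fun r hr => hSS r (hRs hr) n (hTR r hr),
        ⟨j, Finset.mem_erase.2 ⟨hji, hj⟩, hjR, h4 (hTD j hjD)⟩, hcnt⟩
  | succ f ih =>
    intro I R D X Z S hR hD hDR hcard hf hTD hTR
    have hDsub : D ⊆ I \ R := fun x hx => Finset.mem_sdiff.2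
      ⟨hD hx, fun h => Finset.disjoint_left.1 hDR hx h⟩
    have hJ : (I \ R).card = D.card + 3 * (f + 1) := by
      have := Finset.card_sdiff_add_card_eq_card hDsub
      omega
    obtain ⟨i, hi⟩ : ((I \ R) \ D).Nonempty := by rw [← Finset.card_pos]; omega
    obtain ⟨hi1, hiD⟩ := Finset.mem_sdiff.1 hi
    obtain ⟨hiI, hiR⟩ := Finset.mem_sdiff.1 hi1
    have hIJ : (I \ R).card ≤ I.card := Finset.card_le_card Finset.sdiff_subset
    obtain ⟨j, hj, hji, X', Z', S', hR2, hSS, _, hR1j, _, _, h4, _, h7, _, _⟩ :=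
      step' hC S i hiI (by omega)
    have hjI1 : j ∈ I.erase i := Finset.mem_erase.2 ⟨hji, hj⟩
    have hc1 : ((I.erase i) \ R).card + 1 = (I \ R).card := by
      have h1 : (I.erase i) \ R = (I \ R).erase i := by
        ext z; simp only [Finset.mem_sdiff, Finset.mem_erase]; tauto
      rw [h1, Finset.card_erase_of_mem hi1]
      have : 0 < (I \ R).card := Finset.card_pos.2 ⟨i, hi1⟩
      omega
    have hRs : R ⊆ I.erase i := fun r hr => Finset.mem_erase.2 ⟨fun h => hiR (h ▸ hr), hR hr⟩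
    by_cases hjR : j ∈ R
    · right
      exact ⟨I.erase i, X', Z', S', ⟨j, hjR, hjI1, h7 n (hTR j hjR)⟩, by omega⟩
    by_cases hjD : j ∈ D
    · left
      exact ⟨I.erase i, X', Z', S', hRs, fun r hr => hSS r (hRs hr) n (hTR r hr),
        ⟨j, hjI1, hjR, h4 (hTD j hjD)⟩, by omega⟩
    -- process `j`
    have hI1c : (I.erase i).card = I.card - 1 := Finset.card_erase_of_mem hiI
    obtain ⟨k, hk, hkj, X2, Z2, S2, hR22, hSS2, _, _, h2, h3, _, _, h72, _, _⟩ :=
      step' hC S' j hjI1 (by omega)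
    have hkI2 : k ∈ (I.erase i).erase j := Finset.mem_erase.2 ⟨hkj, hk⟩
    have hDs : D ⊆ I.erase i := fun r hr => Finset.mem_erase.2 ⟨fun h => hiD (h ▸ hr), hD hr⟩
    have hDs2 : D ⊆ (I.erase i).erase j := fun r hr =>
      Finset.mem_erase.2 ⟨fun h => hjD (h ▸ hr), hDs hr⟩
    have hRs2 : R ⊆ (I.erase i).erase j := fun r hr =>
      Finset.mem_erase.2 ⟨fun h => hjR (h ▸ hr), hRs hr⟩
    have hj1R : j ∈ (I.erase i) \ R := Finset.mem_sdiff.2 ⟨hjI1, hjR⟩
    have hc2 : (((I.erase i).erase j) \ R).card + 1 = ((I.erase i) \ R).card := by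
      have h1 : ((I.erase i).erase j) \ R = ((I.erase i) \ R).erase j := by
        ext z; simp only [Finset.mem_sdiff, Finset.mem_erase]; tauto
      rw [h1, Finset.card_erase_of_mem hj1R]
      have : 0 < ((I.erase i) \ R).card := Finset.card_pos.2 ⟨j, hj1R⟩
      omega
    by_cases hkR : k ∈ R
    · right
      exact ⟨_, X2, Z2, S2, ⟨k, hkR, hkI2, h72 n (hSS k (hRs hkR) n (hTR k hkR))⟩, by omega⟩
    by_cases hkD : k ∈ D
    · left
      refine ⟨_, X2, Z2, S2, hRs2, fun r hr => hSS2 r (hRs2 hr) n (hSS r (hRs hr) n (hTR r hr)),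
        ⟨k, hkI2, hkR, h3 hR1j ?_⟩, by omega⟩
      intro x hx
      exact (hR2 k (hDs hkD) (hTD k hkD) x hx).r1
    -- `k` becomes a new member of `D`
    have hins : (insert k D).card = D.card + 1 := Finset.card_insert_of_notMem hkD
    have hcard' : ((((I.erase i).erase j) \ R) \ (insert k D)).card = 3 * f := by
      have hsub : insert k D ⊆ ((I.erase i).erase j) \ R := by
        intro z hz
        rcases Finset.mem_insert.1 hz with rfl | hz
        · exact Finset.mem_sdiff.2 ⟨hkI2, hkR⟩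
        · exact Finset.mem_sdiff.2 ⟨hDs2 hz, fun h => Finset.disjoint_left.1 hDR hz h⟩
      have := Finset.card_sdiff_add_card_eq_card hsub
      omega
    have hres := ih ((I.erase i).erase j) R (insert k D) X2 Z2 S2 hRs2
      (by
        intro z hz
        rcases Finset.mem_insert.1 hz with rfl | hz
        · exact hkI2
        · exact hDs2 hz)
      (by
        rw [Finset.disjoint_insert_left]
        exact ⟨hkR, hDR⟩)
      hcard' (by omega)
      (by
        intro z hz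
        rcases Finset.mem_insert.1 hz with rfl | hz
        · exact h2 hR1j
        · exact hR22 z (hDs2 hz) (hR2 z (hDs hz) (hTD z hz)))
      (fun r hr => hSS2 r (hRs2 hr) n (hSS r (hRs hr) n (hTR r hr)))
    rw [hins] at hres
    rcases hres with ⟨I', X', Z', a1, a2, a3, a4, a5⟩ | ⟨I', X', Z', a1, a2, a3⟩
    · left
      exact ⟨I', X', Z', a1, a2, a3, a4, by omega⟩
    · right
      exact ⟨I', X', Z', a1, a2, by omega⟩

/-- Partition into blocks. -/
theorem blocks : ∀ (N s : ℕ) (U : Finset V), N * s ≤ U.card →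
    ∃ X : ℕ → Finset V, (∀ i, i < N → X i ⊆ U ∧ (X i).card = s) ∧
      ∀ i j, i < N → j < N → i ≠ j → Disjoint (X i) (X j) := by
  intro N
  induction N with
  | zero =>
    intro s U _
    exact ⟨fun _ => ∅, fun i hi => absurd hi (Nat.not_lt_zero i),
      fun i _ hi => absurd hi (Nat.not_lt_zero i)⟩
  | succ N ih =>
    intro s U hU
    have h1 : s ≤ U.card := le_trans (by nlinarith) hU
    obtain ⟨Y, hY, hYc⟩ := Finset.exists_subset_card_eq h1
    have h2 : N * s ≤ (U \ Y).card := by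
      have := Finset.card_sdiff_add_card_eq_card hY
      have e : (N + 1) * s = N * s + s := by ring
      omega
    obtain ⟨X, hX1, hX2⟩ := ih s (U \ Y) h2
    refine ⟨fun i => if i = N then Y else X i, ?_, ?_⟩
    · intro i hi
      by_cases h : i = N
      · simp only [h, if_true]
        exact ⟨hY, hYc⟩
      · simp only [h, if_false]
        have h3 := hX1 i (by omega)
        exact ⟨h3.1.trans Finset.sdiff_subset, h3.2⟩
    · have hYX : ∀ i, i < N → Disjoint Y (X i) := fun i hi =>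
        Finset.disjoint_of_subset_right (hX1 i hi).1 Finset.disjoint_sdiff
      intro i j hi hj hij
      by_cases h : i = N
      · by_cases h' : j = N
        · exact absurd (h.trans h'.symm) hij
        · simp only [h, h', if_true, if_false]
          exact hYX j (by omega)
      · by_cases h' : j = N
        · simp only [h, h', if_true, if_false]
          exact (hYX i (by omega)).symm
        · simp only [h, h', if_false]
          exact hX2 i j (by omega) (by omega) hij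

end Pool.Agent.TH149.WR.Block

namespace Pool.Agent.TH149.WR

open Finset Block

theorem block : S_block := by
  intro k
  refine ⟨10 * k + 100, by omega, by omega, ?_⟩
  intro V _ _ G _ U θ hθ hU hdeg hcoh
  have hC : Coh G θ U := ⟨hθ, hdeg, hcoh⟩
  set N0 := 3 * (k + 13) with hN0
  have hU0 : N0 * (3 ^ N0 * θ) ≤ U.card := by
    refine le_trans ?_ hU
    have e1 : N0 ≤ 10 * k + 100 := by omega
    have e2 : 3 ^ N0 * θ ≤ 3 ^ (10 * k + 100) * θ :=
      Nat.mul_le_mul_right _ (Nat.pow_le_pow_right (by norm_num) e1)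
    calc N0 * (3 ^ N0 * θ) ≤ (10 * k + 100) * (3 ^ (10 * k + 100) * θ) := Nat.mul_le_mul e1 e2
      _ = (10 * k + 100) * 3 ^ (10 * k + 100) * θ := (Nat.mul_assoc _ _ _).symm
  obtain ⟨X, hX1, hX2⟩ := blocks N0 (3 ^ N0 * θ) U hU0
  have S0 : Sys G θ U (Finset.range N0) X (fun _ => ∅) := by
    refine ⟨?_, ?_, ?_, ?_, ?_⟩
    · intro i hi
      exact (hX1 i (Finset.mem_range.1 hi)).1
    · intro i hi
      rw [Finset.card_range, (hX1 i (Finset.mem_range.1 hi)).2]
    · intro i hi j hj hij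
      exact hX2 i j (Finset.mem_range.1 hi) (Finset.mem_range.1 hj) hij
    · intro i _ j _ _ a ha
      exact absurd ha (Finset.notMem_empty a)
    · intro i _ j _ _ a ha
      exact absurd ha (Finset.notMem_empty a)
  -- first branch vertex
  have h1 := phaseA hC 2 (k + 13) (Finset.range N0) ∅ ∅ X (fun _ => ∅) S0
    (Finset.empty_subset _) (Finset.empty_subset _) (Finset.disjoint_empty_left _)
    (by simp [hN0]) (by simp) (by simp) (by simp)
  rcases h1 with ⟨I1, X1, Z1, S1, _, _, ⟨j1, hj1, _, hT1⟩, hc1⟩ | ⟨_, _, _, _, ⟨r, hr, _⟩, _⟩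
  swap
  · exact absurd hr (Finset.notMem_empty r)
  rw [Finset.sdiff_empty, Finset.card_empty] at hc1
  -- walk `k + 1` steps
  obtain ⟨I2, X2, Z2, r, S2, hr, hTr, hc2⟩ := walk hC (k + 1) I1 X1 Z1 2 j1 S1 (le_refl _) hj1 hT1
    (by omega)
  -- restrict to the root and nine other blocks
  have hcard2 : 9 ≤ (I2.erase r).card := by
    rw [Finset.card_erase_of_mem hr]; omega
  obtain ⟨J, hJ, hJc⟩ := Finset.exists_subset_card_eq hcard2
  have hrJ : r ∉ J := fun h => (Finset.mem_erase.1 (hJ h)).1 rfl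
  have hsub : insert r J ⊆ I2 := by
    intro z hz
    rcases Finset.mem_insert.1 hz with rfl | hz
    · exact hr
    · exact (Finset.mem_erase.1 (hJ hz)).2
  have S3 := S2.mono hsub
  have h2 := phaseA hC (2 + (k + 1)) 3 (insert r J) {r} ∅ X2 Z2 S3
    (by simp) (Finset.empty_subset _) (Finset.disjoint_empty_left _)
    (by
      have : (insert r J \ {r}) \ ∅ = J := by
        ext z
        simp only [Finset.mem_sdiff, Finset.mem_insert, Finset.mem_singleton, Finset.notMem_empty,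
          not_false_eq_true, and_true]
        constructor
        · rintro ⟨h | h, h'⟩
          · exact absurd h h'
          · exact h
        · intro h
          exact ⟨Or.inr h, fun h' => hrJ (h' ▸ h)⟩
      rw [this, hJc])
    (by simp) (by simp)
    (by
      intro z hz
      rw [Finset.mem_singleton] at hz
      rw [hz]; exact hTr)
  rcases h2 with ⟨I3, X3, Z3, S3', hR3, hT3, ⟨j, hj, hjr, hTj⟩, hc3⟩ |
    ⟨I3, X3, Z3, S3', ⟨r', hr', hr'I, hTr'⟩, hc3⟩
  · have hrI3 : r ∈ I3 := hR3 (Finset.mem_singleton_self r)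
    -- restrict to few blocks is not necessary: the size of `I3` is not bounded a priori, so cut
    have hne : r ≠ j := fun h => hjr (by rw [← h]; exact Finset.mem_singleton_self r)
    have hsub' : ({r, j} : Finset ℕ) ⊆ I3 := by
      intro z hz
      rcases Finset.mem_insert.1 hz with rfl | hz
      · exact hrI3
      · rw [Finset.mem_singleton] at hz; rw [hz]; exact hj
    obtain ⟨t, ht1, ht2, ht3⟩ := final hC 2 {r, j} X3 Z3 (2 + (k + 1)) r j
      (Finset.card_pair hne) (S3'.mono hsub') (by omega) (by simp) (by simp) hne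
      (hT3 r (Finset.mem_singleton_self r)) hTj
    exact ⟨t, by omega, by omega, ht3⟩
  · rw [Finset.mem_singleton] at hr'
    subst hr'
    have hc4 : 3 ≤ I3.card := by
      have h3 : (I3 \ {r'}).card + 1 = I3.card := by
        rw [Finset.sdiff_singleton_eq_erase, Finset.card_erase_of_mem hr'I]
        have : 0 < I3.card := Finset.card_pos.2 ⟨r', hr'I⟩
        omega
      simp at hc3
      omega
    have hT := leafy hC (2 + (k + 1)) r' (by omega) S3' hr'I hc4 hTr'
    exact ⟨2 + (k + 1) - 2, by omega, by omega, hT⟩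

end Pool.Agent.TH149.WR
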