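import Pool.Agent.TH149.WR.Stm

set_option autoImplicit false

/-!
# Cells and the adjacency of the infinite product
-/

namespace Pool.Agent.TH149.WR

open Finset MeasureTheory Filter Topology

variable {m : ℕ → ℕ}

theorem Mm_pos (h2 : ∀ ℓ, 2 ≤ m ℓ) (ℓ : ℕ) : 0 < Mm m ℓ := by
  induction ℓ with
  | zero => exact Nat.one_pos
  | succ ℓ ih => exact Nat.mul_pos ih (by have := h2 ℓ; omega)

theorem Mm_ge (h2 : ∀ ℓ, 2 ≤ m ℓ) (ℓ : ℕ) : 2 ^ ℓ ≤ Mm m ℓ := by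
  induction ℓ with
  | zero => exact Nat.le_refl _
  | succ ℓ ih =>
    rw [pow_succ]
    exact Nat.mul_le_mul ih (h2 ℓ)

theorem Mm_tendsto (h2 : ∀ ℓ, 2 ≤ m ℓ) : Tendsto (Mm m) atTop atTop :=
  tendsto_atTop_mono (Mm_ge h2) (tendsto_pow_atTop_atTop_of_one_lt (by norm_num))

theorem dig_succ (h2 : ∀ ℓ, 2 ≤ m ℓ) (ℓ : ℕ) (x : unitInterval) :
    dig m (ℓ + 1) x / m ℓ = dig m ℓ x := by
  have hm : (m ℓ : ℝ) ≠ 0 := by
    have := h2 ℓ
    positivity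
  unfold dig
  rw [← Nat.floor_div_natCast]
  congr 1
  show (x : ℝ) * ((Mm m ℓ * m ℓ : ℕ) : ℝ) / (m ℓ : ℝ) = (x : ℝ) * (Mm m ℓ : ℝ)
  push_cast
  field_simp

theorem dig_zero (x : unitInterval) (hx : x ≠ 1) : dig m 0 x = 0 := by
  unfold dig
  show ⌊(x : ℝ) * ((1 : ℕ) : ℝ)⌋₊ = 0
  rw [Nat.cast_one, mul_one, Nat.floor_eq_zero]
  have h1 : (x : ℝ) ≤ 1 := x.2.2
  refine lt_of_le_of_ne h1 ?_
  intro h
  exact hx (Subtype.ext h)

/-- all points but `1` lie in a cell -/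
theorem dig_lt (h2 : ∀ ℓ, 2 ≤ m ℓ) (ℓ : ℕ) (x : unitInterval) (hx : x ≠ 1) :
    dig m ℓ x < Mm m ℓ := by
  have hM : (0 : ℝ) < Mm m ℓ := by exact_mod_cast Mm_pos h2 ℓ
  have h1 : (x : ℝ) < 1 := by
    refine lt_of_le_of_ne x.2.2 ?_
    intro h
    exact hx (Subtype.ext h)
  unfold dig
  rw [Nat.floor_lt (mul_nonneg x.2.1 hM.le)]
  nlinarith

theorem divNat_val {a b : ℕ} (c : Fin (a * b)) : (c.divNat : ℕ) = c / b := rfl

theorem modNat_val {a b : ℕ} (c : Fin (a * b)) : (c.modNat : ℕ) = c % b := rfl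

theorem It_succ_adj (Q : ∀ ℓ, SimpleGraph (Fin (m ℓ))) (ℓ : ℕ) (c d : Fin (Mm m ℓ * m ℓ)) :
    (It m Q (ℓ + 1)).Adj c d ↔
      (It m Q ℓ).Adj c.divNat d.divNat ∨ (c.divNat = d.divNat ∧ (Q ℓ).Adj c.modNat d.modNat) :=
  Iff.rfl

theorem up (h2 : ∀ ℓ, 2 ≤ m ℓ) (Q : ∀ ℓ, SimpleGraph (Fin (m ℓ))) (x y : unitInterval)
    (ℓ : ℕ) (a b : Fin (Mm m ℓ)) (ha : dig m ℓ x = a) (hb : dig m ℓ y = b) (hne : a ≠ b)
    (ℓ' : ℕ) (hl : ℓ ≤ ℓ') : ∀ (a' b' : Fin (Mm m ℓ')), dig m ℓ' x = a' → dig m ℓ' y = b' →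
    ((It m Q ℓ').Adj a' b' ↔ (It m Q ℓ).Adj a b) := by
  induction ℓ', hl using Nat.le_induction with
  | base =>
    intro a' b' ha' hb'
    have e1 : a' = a := Fin.ext (by omega)
    have e2 : b' = b := Fin.ext (by omega)
    rw [e1, e2]
  | succ n hn ih =>
    intro a' b' ha' hb'
    change Fin (Mm m n * m n) at a' b'
    have h1 : dig m n x = (a'.divNat : ℕ) := by
      rw [divNat_val, ← dig_succ h2 n x, ha']
    have h3 : dig m n y = (b'.divNat : ℕ) := by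
      rw [divNat_val, ← dig_succ h2 n y, hb']
    have h4 : a'.divNat ≠ b'.divNat := by
      intro h
      have h5 : dig m n x = dig m n y := by rw [h1, h3, h]
      have h6 : ∀ k, dig m (ℓ + k) x = dig m (ℓ + k) y → dig m ℓ x = dig m ℓ y := by
        intro k
        induction k with
        | zero => exact id
        | succ k ihk =>
          intro h7
          apply ihk
          rw [← dig_succ h2 (ℓ + k) x, ← dig_succ h2 (ℓ + k) y]
          have h8 : dig m (ℓ + k + 1) x = dig m (ℓ + k + 1) y := h7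
          rw [h8]
      have h7 := h6 (n - ℓ) (by rw [Nat.add_sub_cancel' hn]; exact h5)
      rw [ha, hb] at h7
      exact hne (Fin.ext h7)
    rw [It_succ_adj]
    constructor
    · rintro (h | h)
      · exact (ih _ _ h1 h3).1 h
      · exact absurd h.1 h4
    · intro h
      exact Or.inl ((ih _ _ h1 h3).2 h)

/-- Key lemma: points in different cells of level `ℓ` are adjacent iff the cells are adjacent in
`It m Q ℓ`. -/
theorem key (h2 : ∀ ℓ, 2 ≤ m ℓ) (Q : ∀ ℓ, SimpleGraph (Fin (m ℓ))) (x y : unitInterval)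
    (ℓ : ℕ) (a b : Fin (Mm m ℓ)) (ha : dig m ℓ x = a) (hb : dig m ℓ y = b) (hne : a ≠ b) :
    WAdj m Q x y ↔ (It m Q ℓ).Adj a b := by
  constructor
  · rintro ⟨ℓ', a', b', ha', hb', hadj⟩
    rcases le_total ℓ ℓ' with h | h
    · exact (up h2 Q x y ℓ a b ha hb hne ℓ' h a' b' ha' hb').1 hadj
    · have hne' : a' ≠ b' := (It m Q ℓ').ne_of_adj hadj
      exact (up h2 Q x y ℓ' a' b' ha' hb' hne' ℓ h a b ha hb).2 hadj
  · intro h
    exact ⟨ℓ, a, b, ha, hb, h⟩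

/-- Inside a common cell of level `ℓ`, different cells of level `ℓ + 1`. -/
theorem key_succ (h2 : ∀ ℓ, 2 ≤ m ℓ) (Q : ∀ ℓ, SimpleGraph (Fin (m ℓ))) (x y : unitInterval)
    (ℓ a : ℕ) (i j : Fin (m ℓ)) (ha : a < Mm m ℓ) (hx : dig m (ℓ + 1) x = a * m ℓ + i)
    (hy : dig m (ℓ + 1) y = a * m ℓ + j) (hne : i ≠ j) :
    WAdj m Q x y ↔ (Q ℓ).Adj i j := by
  have hlt : ∀ t : Fin (m ℓ), a * m ℓ + t < Mm m ℓ * m ℓ := by
    intro t
    have h1 : (a + 1) * m ℓ ≤ Mm m ℓ * m ℓ := Nat.mul_le_mul_right _ ha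
    have h3 : (t : ℕ) < m ℓ := t.2
    have h4 : (a + 1) * m ℓ = a * m ℓ + m ℓ := by ring
    omega
  have hpos : 0 < m ℓ := by have := h2 ℓ; omega
  let c : Fin (Mm m ℓ * m ℓ) := ⟨a * m ℓ + i, hlt i⟩
  let d : Fin (Mm m ℓ * m ℓ) := ⟨a * m ℓ + j, hlt j⟩
  have hcd : c ≠ d := by
    intro h
    have h1 : a * m ℓ + (i : ℕ) = a * m ℓ + j := congrArg Fin.val h
    exact hne (Fin.ext (by omega))
  have hdiv : ∀ t : Fin (m ℓ), (a * m ℓ + (t : ℕ)) / m ℓ = a := by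
    intro t
    rw [Nat.mul_comm, Nat.mul_add_div hpos, Nat.div_eq_of_lt t.2, Nat.add_zero]
  have hmod : ∀ t : Fin (m ℓ), (a * m ℓ + (t : ℕ)) % m ℓ = t := by
    intro t
    rw [Nat.mul_comm, Nat.mul_add_mod, Nat.mod_eq_of_lt t.2]
  have e1 : c.divNat = d.divNat := Fin.ext (by
    show (a * m ℓ + (i : ℕ)) / m ℓ = (a * m ℓ + (j : ℕ)) / m ℓ
    rw [hdiv, hdiv])
  have e2 : c.modNat = i := Fin.ext (hmod i)
  have e3 : d.modNat = j := Fin.ext (hmod j)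
  rw [key h2 Q x y (ℓ + 1) c d hx hy hcd, It_succ_adj, e1, e2, e3]
  constructor
  · rintro (h | h)
    · exact absurd h ((It m Q ℓ).loopless.irrefl _)
    · exact h.2
  · intro h
    exact Or.inr ⟨rfl, h⟩

/-- Different points are separated by the cells of some level. -/
theorem exists_dig_ne (h2 : ∀ ℓ, 2 ≤ m ℓ) (x y : unitInterval) (hne : x ≠ y) :
    ∃ ℓ, dig m ℓ x ≠ dig m ℓ y := by
  by_contra hcon
  push Not at hcon
  have habs : ∀ ℓ, |(x : ℝ) - y| * Mm m ℓ ≤ 1 := by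
    intro ℓ
    have hM : (0 : ℝ) < Mm m ℓ := by exact_mod_cast Mm_pos h2 ℓ
    have hx0 : 0 ≤ (x : ℝ) * Mm m ℓ := mul_nonneg x.2.1 hM.le
    have hy0 : 0 ≤ (y : ℝ) * Mm m ℓ := mul_nonneg y.2.1 hM.le
    have h1 := Nat.floor_le hx0
    have h3 := Nat.lt_floor_add_one ((x : ℝ) * Mm m ℓ)
    have h4 := Nat.floor_le hy0
    have h5 := Nat.lt_floor_add_one ((y : ℝ) * Mm m ℓ)
    have h6 := hcon ℓ
    unfold dig at h6
    rw [h6] at h1 h3
    have h7 : |((x : ℝ) - y) * Mm m ℓ| ≤ 1 := by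
      rw [abs_le]
      constructor <;> nlinarith
    rwa [abs_mul, abs_of_pos hM] at h7
  have hpos : 0 < |(x : ℝ) - y| := by
    rw [abs_pos, sub_ne_zero]
    exact fun h => hne (Subtype.ext h)
  obtain ⟨n, hn⟩ := exists_nat_gt (1 / |(x : ℝ) - y|)
  have h1 := habs n
  have h3 : (n : ℝ) < Mm m n := by
    have h4 : n < 2 ^ n := Nat.lt_two_pow_self
    exact_mod_cast lt_of_lt_of_le h4 (Mm_ge h2 n)
  rw [div_lt_iff₀ hpos] at hn
  nlinarith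

/-- The measure of a cell. -/
theorem volume_cell (h2 : ∀ ℓ, 2 ≤ m ℓ) (ℓ a : ℕ) (ha : a < Mm m ℓ) :
    volume {x : unitInterval | dig m ℓ x = a} = ENNReal.ofReal (1 / (Mm m ℓ : ℝ)) := by
  have hM : (0 : ℝ) < Mm m ℓ := by exact_mod_cast Mm_pos h2 ℓ
  have ha' : (a : ℝ) + 1 ≤ Mm m ℓ := by exact_mod_cast ha
  have hI1 : (a : ℝ) / Mm m ℓ ∈ unitInterval := by
    constructor
    · positivity
    · rw [div_le_one hM]; linarith
  have hI2 : ((a : ℝ) + 1) / Mm m ℓ ∈ unitInterval := by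
    constructor
    · positivity
    · rw [div_le_one hM]; exact ha'
  have : {x : unitInterval | dig m ℓ x = a} =
      Set.Ico (⟨(a : ℝ) / Mm m ℓ, hI1⟩ : unitInterval) ⟨((a : ℝ) + 1) / Mm m ℓ, hI2⟩ := by
    ext x
    unfold dig
    rw [Set.mem_ofPred_eq, Nat.floor_eq_iff (mul_nonneg x.2.1 hM.le), Set.mem_Ico,
      ← Subtype.coe_le_coe, ← Subtype.coe_lt_coe]
    show _ ↔ (a : ℝ) / Mm m ℓ ≤ x ∧ (x : ℝ) < ((a : ℝ) + 1) / Mm m ℓ
    rw [div_le_iff₀ hM, lt_div_iff₀ hM]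
  rw [this, unitInterval.volume_Ico]
  congr 1
  show ((a : ℝ) + 1) / Mm m ℓ - (a : ℝ) / Mm m ℓ = 1 / Mm m ℓ
  ring

theorem measurableSet_cell (ℓ a : ℕ) : MeasurableSet {x : unitInterval | dig m ℓ x = a} :=
  measurable_dig m ℓ (measurableSet_singleton a)

end Pool.Agent.TH149.WR
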