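import Pool.Agent.TH149.WR.EhpT
import Pool.Agent.TH149.WR.Key
import Pool.Agent.TH671.J1056
import Pool.Agent.TH671.J1057
import Pool.Agent.TH370.J1058
import Pool.Agent.TH897.J1059
import Pool.Agent.TH444.J1077
import Pool.Agent.TH444.J1078
import Pool.Agent.TH304.J1079
import Pool.Agent.TH89.J1080

set_option autoImplicit false

/-!
# Classes in `WR` have the Erdos-Hajnal property
-/

namespace Pool.Agent.TH149.WR

open Finset MeasureTheory Filter Topology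

theorem IsPrime.compl {W : Type} {H : SimpleGraph W} (h : IsPrime H) : IsPrime Hᶜ := by
  intro M hM
  refine h M ?_
  intro v hv x hx y hy
  have h1 := hM v hv x hx y hy
  rw [SimpleGraph.compl_adj, SimpleGraph.compl_adj] at h1
  have hvx : v ≠ x := fun e => hv (e ▸ hx)
  have hvy : v ≠ y := fun e => hv (e ▸ hy)
  simp only [ne_eq, hvx, hvy, not_false_eq_true, true_and] at h1
  exact not_iff_not.1 h1

/-- incomparability -/
theorem incomparable (htree : S_tree) {a b : ℕ} (hab : a ≠ b) {P : SimpleGraph (Fin (a + 7))}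
    {P' : SimpleGraph (Fin (b + 7))} (hP : P = T a ∨ P = (T a)ᶜ) (hP' : P' = T b ∨ P' = (T b)ᶜ) :
    ¬ Nonempty (P ↪g P') := by
  obtain ⟨_, h2, h3⟩ := htree
  rcases hP with rfl | rfl <;> rcases hP' with rfl | rfl
  · exact fun h => hab (h2 a b h)
  · exact h3 a b
  · rintro ⟨f⟩
    have g := SimpleGraph.Embedding.complEquiv f
    rw [compl_compl] at g
    exact h3 a b ⟨g⟩
  · rintro ⟨f⟩
    exact hab (h2 a b ⟨SimpleGraph.Embedding.complEquiv.symm f⟩)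

/-- starts of the blocks of levels -/
def bb (n : ℕ → ℕ) : ℕ → ℕ
  | 0 => 0
  | i + 1 => bb n i + n i

theorem bb_strictMono {n : ℕ → ℕ} (hn : ∀ i, 1 ≤ n i) : StrictMono (bb n) :=
  strictMono_nat_of_lt_succ fun i => by
    show bb n i < bb n i + n i
    have := hn i; omega

/-- the index of the block which contains a level -/
def ss (n : ℕ → ℕ) (ℓ : ℕ) : ℕ := Nat.findGreatest (fun i => bb n i ≤ ℓ) ℓ

theorem bb_ss_le {n : ℕ → ℕ} (ℓ : ℕ) : bb n (ss n ℓ) ≤ ℓ :=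
  Nat.findGreatest_spec (P := fun i => bb n i ≤ ℓ) (m := 0) (Nat.zero_le _) (Nat.zero_le _)

theorem le_ss {n : ℕ → ℕ} (hn : ∀ i, 1 ≤ n i) {i ℓ : ℕ} (h : bb n i ≤ ℓ) : i ≤ ss n ℓ :=
  Nat.le_findGreatest (le_trans (bb_strictMono hn).le_apply h) h

theorem ss_eq {n : ℕ → ℕ} (hn : ∀ i, 1 ≤ n i) {i ℓ : ℕ} (h : bb n i ≤ ℓ) (h' : ℓ < bb n (i + 1)) :
    ss n ℓ = i := by
  refine le_antisymm ?_ (le_ss hn h)
  by_contra hcon
  rw [not_le] at hcon
  have h1 : bb n (i + 1) ≤ bb n (ss n ℓ) := (bb_strictMono hn).monotone hcon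
  have h2 := bb_ss_le (n := n) ℓ
  omega

theorem exists_cell {m : ℕ → ℕ} (h2 : ∀ ℓ, 2 ≤ m ℓ) (e : ℕ) (A : Set unitInterval)
    (hA : 0 < volume A) : ∃ b, 0 < volume (A ∩ {x | dig m e x = b}) := by
  by_contra hcon
  push Not at hcon
  have h1 : volume (⋃ b : ℕ, A ∩ {x | dig m e x = b}) = 0 := by
    rw [measure_iUnion_null_iff]
    intro b
    exact nonpos_iff_eq_zero.1 (hcon b)
  have h3 : A ⊆ ⋃ b : ℕ, A ∩ {x | dig m e x = b} := by
    intro x hx
    rw [Set.mem_iUnion]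
    exact ⟨dig m e x, hx, rfl⟩
  have h4 := measure_mono_null h3 h1
  rw [h4] at hA
  exact lt_irrefl _ hA

theorem main (F : GClass) (hF : Hereditary F) (hWR : HasWR F) : EHP F := by
  by_contra hE
  have htree : S_tree := Pool.Agent.TH370.J1058.tree
  obtain ⟨j, P, hjm, hj1, hP, hIt⟩ := Pool.Agent.TH897.J1059.chain
    (Pool.Agent.TH671.J1057.aps Pool.Agent.TH671.J1056.ext) ehpT F hF hE
  -- the lengths of the blocks
  have hn : ∀ i : ℕ, ∃ n : ℕ, 1 ≤ n ∧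
      (1 - 1 / ((j i + 7 : ℕ) : ℝ)) ^ n < 1 / ((i : ℝ) + 1) := by
    intro i
    have h7 : (1 : ℝ) < ((j i + 7 : ℕ) : ℝ) := by
      exact_mod_cast (by omega : 1 < j i + 7)
    have h0 : 0 ≤ 1 - 1 / ((j i + 7 : ℕ) : ℝ) := by
      have : 1 / ((j i + 7 : ℕ) : ℝ) ≤ 1 := by
        rw [div_le_one (by positivity)]; exact h7.le
      linarith
    have h1 : 1 - 1 / ((j i + 7 : ℕ) : ℝ) < 1 := by
      have : 0 < 1 / ((j i + 7 : ℕ) : ℝ) := by positivity
      linarith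
    obtain ⟨n, hn⟩ := exists_pow_lt_of_lt_one (show (0 : ℝ) < 1 / ((i : ℝ) + 1) by positivity) h1
    refine ⟨n + 1, by omega, lt_of_le_of_lt ?_ hn⟩
    exact pow_le_pow_of_le_one h0 h1.le (Nat.le_succ n)
  choose n hn1 hn2 using hn
  set s := ss n with hs
  set m : ℕ → ℕ := fun ℓ => j (s ℓ) + 7 with hm
  set Q : ∀ ℓ, SimpleGraph (Fin (m ℓ)) := fun ℓ => P (s ℓ) with hQ
  have h2 : ∀ ℓ, 2 ≤ m ℓ := fun ℓ => by simp only [hm]; omega
  have hprime : ∀ ℓ, IsPrime (Q ℓ) := by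
    intro ℓ
    simp only [hQ]
    rcases hP (s ℓ) with h | h
    · rw [h]; exact htree.1 _ (hj1 _)
    · rw [h]; exact (htree.1 _ (hj1 _)).compl
  have hgr : IsGraphonOf F (Wq m Q) :=
    ⟨Mm m, It m Q, fun ℓ => hIt s ℓ, Mm_tendsto h2, fun h H => Pool.Agent.TH89.J1080.lim m Q h2 h H⟩
  obtain ⟨A, hAm, hA, hW⟩ := hWR _ hgr
  have hAfin : volume A ≠ ⊤ := measure_ne_top _ _
  have hAr : 0 < (volume A).toReal := ENNReal.toReal_pos hA.ne' hAfin
  obtain ⟨i, hi⟩ := exists_nat_one_div_lt hAr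
  have hbs : bb n i ≤ bb n (i + 1) := (bb_strictMono hn1).monotone (Nat.le_succ i)
  have hsi : ∀ ℓ, bb n i ≤ ℓ → ℓ < bb n (i + 1) → s ℓ = i := fun ℓ h h' => ss_eq hn1 h h'
  have hlt : bb n i < bb n (i + 1) := bb_strictMono hn1 (Nat.lt_succ_self i)
  have hsb : s (bb n i) = i := hsi _ (le_refl _) hlt
  obtain ⟨ℓ, hℓ1, hℓ2, a, ha, hfull⟩ := Pool.Agent.TH444.J1077.cells m h2 A hAm (bb n i)
    (bb n (i + 1)) hbs
    (fun ℓ h h' => by simp only [hm]; rw [hsi ℓ h h', hsb])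
    (by
      have e1 : bb n (i + 1) - bb n i = n i := by
        show bb n i + n i - bb n i = n i
        omega
      have e2 : (m (bb n i) : ℝ) = ((j i + 7 : ℕ) : ℝ) := by
        simp only [hm]; rw [hsb]
      rw [e1, e2]
      exact lt_trans (hn2 i) hi)
  have hposA := Pool.Agent.TH444.J1078.pos m Q h2 A hAm ℓ a ha hfull
  obtain ⟨b, hb⟩ := exists_cell h2 (bb n (i + 1)) A hA
  have hzero := Pool.Agent.TH304.J1079.zero m Q h2 (bb n (i + 1)) b (m ℓ) (Q ℓ) (h2 ℓ) (hprime ℓ)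
    (by
      intro ℓ' hℓ'
      have h3 : s ℓ = i := hsi ℓ hℓ1 hℓ2
      have h4 : i + 1 ≤ s ℓ' := le_ss hn1 hℓ'
      have h5 : j (s ℓ) ≠ j (s ℓ') := by
        rw [h3]
        exact (hjm (by omega : i < s ℓ')).ne
      exact incomparable htree h5 (hP _) (hP _))
    (A ∩ {x | dig m (bb n (i + 1)) x = b}) (hAm.inter (measurableSet_cell _ _))
    Set.inter_subset_right
  have hiff := hW (A ∩ {x | dig m (bb n (i + 1)) x = b}) Set.inter_subset_left
    (hAm.inter (measurableSet_cell _ _)) hb (m ℓ) (Q ℓ)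
  have := hiff.2 hposA
  rw [hzero] at this
  exact lt_irrefl _ this

end Pool.Agent.TH149.WR
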