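import Pool.Agent.TH149.WR.Defs

set_option autoImplicit false

/-!
# Statements of the lemmas
-/

namespace Pool.Agent.TH149.WR

open Finset MeasureTheory Filter Topology

/-- Roedl's theorem, with maximal degrees. -/
def S_rodl : Prop :=
  ∀ (k : ℕ) (H : SimpleGraph (Fin k)) (r : ℕ), ∃ K : ℕ,
    ∀ (V : Type) [Fintype V] [DecidableEq V] (G : SimpleGraph V) [DecidableRel G.Adj],
      ¬ Nonempty (H ↪g G) → ∀ U : Finset V, U.Nonempty →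
      ∃ X ⊆ U, X.Nonempty ∧ U.card ≤ K * X.card ∧
        ((∀ x ∈ X, r * (X.filter (fun y => G.Adj x y)).card ≤ X.card) ∨
         (∀ x ∈ X, r * (X.filter (fun y => Gᶜ.Adj x y)).card ≤ X.card))

/-- A sparse graph without two large anticomplete sets contains some `T j`. -/
def S_block : Prop :=
  ∀ k : ℕ, ∃ N : ℕ, k ≤ N ∧ 1 ≤ N ∧
    ∀ (V : Type) [Fintype V] [DecidableEq V] (G : SimpleGraph V) [DecidableRel G.Adj]
      (U : Finset V) (θ : ℕ), 1 ≤ θ → N * 3 ^ N * θ ≤ U.card →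
      (∀ v ∈ U, (U.filter (fun y => G.Adj v y)).card ≤ θ) →
      (∀ A ⊆ U, ∀ B ⊆ U, Disjoint A B → θ ≤ A.card → θ ≤ B.card →
        ∃ a ∈ A, ∃ b ∈ B, G.Adj a b) →
      ∃ j, k ≤ j ∧ j ≤ N ∧ Nonempty (T j ↪g G)

/-- Large pure pairs in all subsets give large homogeneous sets. -/
def S_pure : Prop :=
  ∀ ε : ℝ, 0 < ε → ∃ c : ℝ, 0 < c ∧ ∀ (n : ℕ) (G : SimpleGraph (Fin n)),
    (∀ U : Finset (Fin n), 2 ≤ U.card → ∃ A ⊆ U, ∃ B ⊆ U, Disjoint A B ∧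
      ε * (U.card : ℝ) ≤ (A.card : ℝ) ∧ ε * (U.card : ℝ) ≤ (B.card : ℝ) ∧
      ((∀ a ∈ A, ∀ b ∈ B, G.Adj a b) ∨ (∀ a ∈ A, ∀ b ∈ B, ¬ G.Adj a b))) →
    ∃ S : Finset (Fin n), (G.IsClique (S : Set (Fin n)) ∨ G.IsIndepSet (S : Set (Fin n))) ∧
      (n : ℝ) ^ c ≤ (S.card : ℝ)

/-- The Erdos-Hajnal property without the trees `T j`, `k ≤ j ≤ N`, and their complements. -/
def S_ehpT : Prop :=
  ∀ k : ℕ, ∃ N : ℕ, k ≤ N ∧ ∃ c : ℝ, 0 < c ∧ ∀ (n : ℕ) (G : SimpleGraph (Fin n)),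
    (∀ j, k ≤ j → j ≤ N → ¬ Nonempty (T j ↪g G) ∧ ¬ Nonempty ((T j)ᶜ ↪g G)) →
    ∃ S : Finset (Fin n), (G.IsClique (S : Set (Fin n)) ∨ G.IsIndepSet (S : Set (Fin n))) ∧
      (n : ℝ) ^ c ≤ (S.card : ℝ)

/-- Counting lemma: if all sets of size `m` contain a copy of `H`, then some map on `H - v` has
many extensions to a copy of `H`. -/
def S_ext : Prop :=
  ∀ (V : Type) [Fintype V] [DecidableEq V] (G : SimpleGraph V)
    (W : Type) [Fintype W] [DecidableEq W] (H : SimpleGraph W) (v : W) (m : ℕ),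
    Fintype.card W ≤ m → m ≤ Fintype.card V →
    (∀ S : Finset V, S.card = m → ∃ f : H ↪g G, ∀ w, f w ∈ S) →
    ∃ (g : W → V) (U : Finset V), Fintype.card V ≤ U.card * m ^ (Fintype.card W) ∧
      ∀ u ∈ U, ∃ f : H ↪g G, f v = u ∧ ∀ w, w ≠ v → f w = g w

/-- Alon-Pach-Solymosi, for the lexicographic product. -/
def S_aps : Prop :=
  ∀ F : GClass, Hereditary F → ∀ (a b : ℕ) (H : SimpleGraph (Fin a)) (K : SimpleGraph (Fin b)),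
    EHP (Fr F H) → EHP (Fr F K) → EHP (Fr F (lex H K))

/-- The trees `T j` and their complements are prime and incomparable. -/
def S_tree : Prop :=
  (∀ j, 1 ≤ j → IsPrime (T j)) ∧ (∀ i j, Nonempty (T i ↪g T j) → i = j) ∧
    (∀ i j, ¬ Nonempty (T i ↪g (T j)ᶜ))

/-- The chain argument. -/
def S_chain : Prop :=
  ∀ F : GClass, Hereditary F → ¬ EHP F →
    ∃ (j : ℕ → ℕ) (P : ∀ i, SimpleGraph (Fin (j i + 7))), StrictMono j ∧ (∀ i, 1 ≤ j i) ∧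
      (∀ i, P i = T (j i) ∨ P i = (T (j i))ᶜ) ∧
      ∀ (s : ℕ → ℕ) (ℓ : ℕ), F _ (It (fun i => j (s i) + 7) (fun i => P (s i)) ℓ)

/-- Cells: some cell of a level in `[s, e)` meets `A` fully. -/
def S_cells : Prop :=
  ∀ m : ℕ → ℕ, (∀ ℓ, 2 ≤ m ℓ) → ∀ A : Set unitInterval, MeasurableSet A →
    ∀ s e : ℕ, s ≤ e → (∀ ℓ, s ≤ ℓ → ℓ < e → m ℓ = m s) →
    (1 - 1 / (m s : ℝ)) ^ (e - s) < (volume A).toReal →
    ∃ ℓ, s ≤ ℓ ∧ ℓ < e ∧ ∃ a < Mm m ℓ, ∀ t < m ℓ,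
      0 < volume (A ∩ {x | dig m (ℓ + 1) x = a * m ℓ + t})

/-- A cell which is met fully gives a positive density. -/
def S_pos : Prop :=
  ∀ (m : ℕ → ℕ) (Q : ∀ ℓ, SimpleGraph (Fin (m ℓ))), (∀ ℓ, 2 ≤ m ℓ) →
    ∀ A : Set unitInterval, MeasurableSet A → ∀ (ℓ a : ℕ), a < Mm m ℓ →
    (∀ t < m ℓ, 0 < volume (A ∩ {x | dig m (ℓ + 1) x = a * m ℓ + t})) →
    0 < (Wq m Q).dens A (Q ℓ)

/-- Inside a cell of level `e` only the later graphs matter. -/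
def S_zero : Prop :=
  ∀ (m : ℕ → ℕ) (Q : ∀ ℓ, SimpleGraph (Fin (m ℓ))), (∀ ℓ, 2 ≤ m ℓ) →
    ∀ (e b h : ℕ) (H : SimpleGraph (Fin h)), 2 ≤ h → IsPrime H →
    (∀ ℓ, e ≤ ℓ → ¬ Nonempty (H ↪g Q ℓ)) →
    ∀ B : Set unitInterval, MeasurableSet B → B ⊆ {x | dig m e x = b} →
    (Wq m Q).dens B H = 0

/-- The graphon `Wq m Q` is the limit of the finite iterated products. -/
def S_lim : Prop :=
  ∀ (m : ℕ → ℕ) (Q : ∀ ℓ, SimpleGraph (Fin (m ℓ))), (∀ ℓ, 2 ≤ m ℓ) →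
    ∀ (h : ℕ) (H : SimpleGraph (Fin h)),
      Tendsto (fun ℓ => gdens H (It m Q ℓ)) atTop (𝓝 ((Wq m Q).dens Set.univ H))

end Pool.Agent.TH149.WR
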